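import Pool.Agent.W549.CYDefs
import Pool.Agent.W711.KC.Grp

/-!
# Base definitions: chart computations on `ℍ × ℂ²`

`p 0 = z` is the coordinate of the upper half plane, `(p 1, p 2) = u` the fibre coordinates. The
group acts by `(z, u) ↦ ((a z + b) / (c z + d), u / (c z + d))`.
-/

set_option autoImplicit false

open scoped Manifold ContDiff Topology ComplexConjugate MatrixGroups UpperHalfPlane Matrix
open MeasureTheory Set Filter

namespace Pool.Agent.TH598.KG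

open Pool.Agent.W549.CY (Cn dz dzbar HermitianMetric chernRicci chernScalar)
open Pool.Agent.W711.KC (jj nn)

/-- `3 × 3` complex matrices. -/
abbrev M3 : Type := Matrix (Fin 3) (Fin 3) ℂ

/-- The value `∑ A_{jk} v_j conj(v_k)` of a sesquilinear form. -/
noncomputable def hf {n : ℕ} (A : Matrix (Fin n) (Fin n) ℂ) (v : Cn n) : ℂ :=
  ∑ j, ∑ k, A j k * v j * conj (v k)

/-- The polarisation of the adjugate of a `3 × 3` matrix. -/
noncomputable def padj (a b : M3) : M3 := (a + b).adjugate - a.adjugate - b.adjugate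

/-- The mixed discriminant, `DD a a a = 6 det a`. -/
noncomputable def DD (x a b : M3) : ℂ := (x * padj a b).trace

/-- The domain `ℍ × ℂ²`. -/
def UU : Set (Cn 3) := {p | 0 < (p 0).im}

/-- The action of `SL(2, ℝ)`. -/
noncomputable def Fa (g : SL(2, ℝ)) (p : Cn 3) : Cn 3 :=
  ![nn g (p 0) / jj g (p 0), p 1 / jj g (p 0), p 2 / jj g (p 0)]

/-- `|u|²` -/
noncomputable def nsq (p : Cn 3) : ℝ := Complex.normSq (p 1) + Complex.normSq (p 2)

/-- `N = y + |u|²` -/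
noncomputable def Nn (p : Cn 3) : ℝ := (p 0).im + nsq p

/-- `s = |u|² / y`, an invariant function. -/
noncomputable def ss (p : Cn 3) : ℝ := nsq p / (p 0).im

/-- `σ = s / (1 + s) = |u|² / N`. -/
noncomputable def sig (p : Cn 3) : ℝ := nsq p / Nn p

/-- The hyperbolic form `ω_C = (2 y²)⁻¹ i dz ∧ dz̄`. -/
noncomputable def omC (p : Cn 3) : M3 :=
  !![1 / (2 * ((p 0).im : ℂ) ^ 2), 0, 0; 0, 0, 0; 0, 0, 0]

/-- The form `Θ = i∂∂̄ (log N - log y)`. -/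
noncomputable def Th (p : Cn 3) : M3 :=
  !![-(1 / (4 * (Nn p : ℂ) ^ 2)) + 1 / (4 * ((p 0).im : ℂ) ^ 2),
      Complex.I / 2 * p 1 / (Nn p : ℂ) ^ 2, Complex.I / 2 * p 2 / (Nn p : ℂ) ^ 2;
    -(Complex.I / 2 * conj (p 1) / (Nn p : ℂ) ^ 2),
      1 / (Nn p : ℂ) - conj (p 1) * p 1 / (Nn p : ℂ) ^ 2, -(conj (p 1) * p 2 / (Nn p : ℂ) ^ 2);
    -(Complex.I / 2 * conj (p 2) / (Nn p : ℂ) ^ 2),
      -(conj (p 2) * p 1 / (Nn p : ℂ) ^ 2), 1 / (Nn p : ℂ) - conj (p 2) * p 2 / (Nn p : ℂ) ^ 2]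

/-- The reference Kähler metric. -/
noncomputable def g0 (p : Cn 3) : M3 := Th p + (1 / 2 : ℂ) • omC p

/-- The form `3 Θ - 2 ω_C = i∂∂̄ (3 log N + log y)`. -/
noncomputable def rho0 (p : Cn 3) : M3 := (3 : ℂ) • Th p - (2 : ℂ) • omC p

/-- The function `f₁`. -/
noncomputable def f1 (x : ℝ) : ℝ := 1 + 15 * x ^ 2

/-- The function `f₂`. -/
noncomputable def f2 (x : ℝ) : ℝ := (1 - 10 * x ^ 3 - 90 * x ^ 5) / (1 + 15 * x ^ 2)

/-- The balanced metric `f₁(σ) Θ + f₂(σ) ω_C`. -/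
noncomputable def Gm (p : Cn 3) : M3 := (f1 (sig p) : ℂ) • Th p + (f2 (sig p) : ℂ) • omC p

/-- Equivariance of a family of sesquilinear forms on `ℍ × ℂ²`. -/
def Equi (Γ : Subgroup SL(2, ℝ)) (a : Cn 3 → M3) : Prop :=
  ∀ g ∈ Γ, ∀ p ∈ UU, ∀ v : Cn 3, hf (a p) v = hf (a (Fa g p)) (fderiv ℂ (Fa g) p v)

/-- Equivariance of a `(0,1)`-form with components `η k`. -/
def Equi01 (Γ : Subgroup SL(2, ℝ)) (η : Fin 3 → Cn 3 → ℂ) : Prop :=
  ∀ g ∈ Γ, ∀ p ∈ UU, ∀ v : Cn 3,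
    ∑ k, η k p * conj (v k) = ∑ k, η k (Fa g p) * conj (fderiv ℂ (Fa g) p v k)

/-- Closedness of the real `(1,1)`-form with Hermitian matrix `a`. -/
def Closed (a : Cn 3 → M3) : Prop :=
  ∀ p ∈ UU, ∀ i j k : Fin 3, dz i (fun q => a q j k) p = dz j (fun q => a q i k) p

/-- `|a| ≤ C g₀`. -/
def Bdd (a : Cn 3 → M3) (C : ℝ) : Prop :=
  ∀ p ∈ UU, ∀ v : Cn 3, |(hf (a p) v).re| ≤ C * (hf (g0 p) v).re

/-- `a` is a closed real `(1,1)`-form of class `C¹` on the quotient, bounded by `C g₀`. -/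
structure IsForm (Γ : Subgroup SL(2, ℝ)) (a : Cn 3 → M3) (C : ℝ) : Prop where
  c1 : ∀ j k, ContDiffOn ℝ 1 (fun p => a p j k) UU
  herm : ∀ p ∈ UU, (a p).IsHermitian
  closed : Closed a
  equi : Equi Γ a
  bdd : Bdd a C

/-- A partition function for the action of `Γ` on the upper half plane. -/
structure Cutoff (Γ : Subgroup SL(2, ℝ)) (φ : ℂ → ℝ) : Prop where
  smooth : ContDiff ℝ ∞ φ
  compact : HasCompactSupport φ
  supp : tsupport φ ⊆ {z | 0 < z.im}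
  nonneg : ∀ z, 0 ≤ φ z
  sum : ∀ z : ℍ, ∑' g : Γ, φ (((g : SL(2, ℝ)) • z : ℍ) : ℂ) = 1

/-- The fixed cutoff function on the line: `1` on `(-∞, 1]` and `0` on `[2, ∞)`. -/
noncomputable def chi (x : ℝ) : ℝ := Real.smoothTransition (2 - x)

/-- The quadratic functional `∫ ρ₀ ∧ a ∧ b`. -/
noncomputable def Phi (φ : ℂ → ℝ) (a b : Cn 3 → M3) : ℂ :=
  ∫ p in UU, (φ (p 0) : ℂ) * DD (rho0 p) (a p) (b p)

/-- The Wirtinger derivative in one variable. -/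
noncomputable def d1 (f : ℂ → ℂ) (z : ℂ) : ℂ :=
  (1 / 2) * (fderiv ℝ f z 1 - Complex.I * fderiv ℝ f z Complex.I)

/-- The action of a unitary matrix on the fibre. -/
noncomputable def ru (W : Matrix (Fin 2) (Fin 2) ℂ) (p : Cn 3) : Cn 3 :=
  ![p 0, W 0 0 * p 1 + W 0 1 * p 2, W 1 0 * p 1 + W 1 1 * p 2]

/-- The matrix of the linear map `ru W`. -/
noncomputable def RM (W : Matrix (Fin 2) (Fin 2) ℂ) : M3 :=
  !![1, 0, 0; 0, W 0 0, W 0 1; 0, W 1 0, W 1 1]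

/-- The pull-back of a form under `ru W`: `hf (rot W a p) v = hf (a (ru W p)) (ru W v)`. -/
noncomputable def rot (W : Matrix (Fin 2) (Fin 2) ℂ) (a : Cn 3 → M3) (p : Cn 3) : M3 :=
  (RM W)ᵀ * a (ru W p) * (RM W).map conj

/-- Invariance under the unitary group of the fibre. -/
def RotInv (a : Cn 3 → M3) : Prop :=
  ∀ W ∈ Matrix.unitaryGroup (Fin 2) ℂ, ∀ p ∈ UU, ∀ v : Cn 3, hf (a (ru W p)) (ru W v) = hf (a p) v

end Pool.Agent.TH598.KG
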