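import Pool.Agent.TH598.KG.Met

/-!
# The metrics in the three charts: positivity and transition rules
-/

set_option autoImplicit false

open scoped Manifold ContDiff Topology ComplexConjugate MatrixGroups UpperHalfPlane Matrix
open MeasureTheory Set Filter

namespace Pool.Agent.TH598.KG

open Pool.Agent.W549.CY (Cn dz dzbar HermitianMetric chernRicci chernScalar)
open Pool.Agent.W711.KC (jj nn CG CG_far jj_ne im_mob det_eq)
open Complex (normSq)

/-- `N` in homogeneous coordinates. -/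
noncomputable def NX (z : ℂ) (X : Cn 3) : ℝ := z.im * normSq (X 0) + normSq (X 1) + normSq (X 2)

/-- `σ` in homogeneous coordinates. -/
noncomputable def SX (z : ℂ) (X : Cn 3) : ℝ := (normSq (X 1) + normSq (X 2)) / NX z X

/-- The covariant derivative of `X 0`. -/
noncomputable def wt (z : ℂ) (X : Cn 3) (t : ℂ) (W : Cn 3) : ℂ :=
  W 0 - Complex.I / (2 * (z.im : ℂ)) * t * X 0

/-- The sum of squares in `Θ`. -/
noncomputable def QX (z : ℂ) (X : Cn 3) (t : ℂ) (W : Cn 3) : ℝ :=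
  z.im * normSq (X 0 * W 1 - X 1 * wt z X t W) + z.im * normSq (X 0 * W 2 - X 2 * wt z X t W) +
    normSq (X 1 * W 2 - X 2 * W 1)

/-- `Θ` in homogeneous coordinates. -/
noncomputable def TT (z : ℂ) (X : Cn 3) (t : ℂ) (W : Cn 3) : ℝ :=
  QX z X t W / NX z X ^ 2 + SX z X * (normSq t / (4 * z.im ^ 2))

theorem NX_pos {z : ℂ} (hz : 0 < z.im) {X : Cn 3} (hX : X ≠ 0) : 0 < NX z X := by
  obtain ⟨i, hi⟩ := Function.ne_iff.1 hX
  have h0 := Complex.normSq_nonneg (X 0)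
  have h1 := Complex.normSq_nonneg (X 1)
  have h2 := Complex.normSq_nonneg (X 2)
  have hi' : 0 < normSq (X i) := Complex.normSq_pos.2 hi
  unfold NX
  fin_cases i
  · have : 0 < z.im * normSq (X 0) := mul_pos hz hi'
    linarith
  · have := mul_nonneg hz.le h0
    have h3 : 0 < normSq (X 1) := hi'
    linarith
  · have := mul_nonneg hz.le h0
    have h3 : 0 < normSq (X 2) := hi'
    linarith

theorem NX_smul (z : ℂ) (X : Cn 3) (c : ℂ) : NX z (c • X) = normSq c * NX z X := by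
  unfold NX
  simp only [Pi.smul_apply, smul_eq_mul, Complex.normSq_mul]
  ring

theorem SX_smul (z : ℂ) (X : Cn 3) {c : ℂ} (hc : c ≠ 0) : SX z (c • X) = SX z X := by
  unfold SX
  rw [NX_smul]
  simp only [Pi.smul_apply, smul_eq_mul, Complex.normSq_mul]
  rw [← mul_add, mul_div_mul_left _ _ (Complex.normSq_pos.2 hc).ne']

theorem QX_scale (z : ℂ) (X : Cn 3) (t : ℂ) (W : Cn 3) (c d : ℂ) :
    QX z (c • X) t (c • W + d • X) = normSq c ^ 2 * QX z X t W := by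
  have h1 : wt z (c • X) t (c • W + d • X) = c * wt z X t W + d * X 0 := by
    unfold wt
    simp only [Pi.smul_apply, Pi.add_apply, smul_eq_mul]
    ring
  unfold QX
  rw [h1]
  simp only [Pi.smul_apply, Pi.add_apply, smul_eq_mul]
  have e1 : c * X 0 * (c * W 1 + d * X 1) - c * X 1 * (c * wt z X t W + d * X 0) =
      c * c * (X 0 * W 1 - X 1 * wt z X t W) := by ring
  have e2 : c * X 0 * (c * W 2 + d * X 2) - c * X 2 * (c * wt z X t W + d * X 0) =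
      c * c * (X 0 * W 2 - X 2 * wt z X t W) := by ring
  have e3 : c * X 1 * (c * W 2 + d * X 2) - c * X 2 * (c * W 1 + d * X 1) =
      c * c * (X 1 * W 2 - X 2 * W 1) := by ring
  rw [e1, e2, e3]
  simp only [Complex.normSq_mul]
  ring

theorem TT_scale (z : ℂ) (X : Cn 3) (t : ℂ) (W : Cn 3) {c : ℂ} (hc : c ≠ 0) (d : ℂ) :
    TT z (c • X) t (c • W + d • X) = TT z X t W := by
  have hc' := (Complex.normSq_pos.2 hc).ne'
  unfold TT
  rw [QX_scale, NX_smul, SX_smul z X hc, mul_pow, mul_div_mul_left _ _ (pow_ne_zero 2 hc')]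

/-- The derivative of the homogeneous coordinates under the action. -/
noncomputable def dH (g : SL(2, ℝ)) (z : ℂ) (X : Cn 3) (t : ℂ) (W : Cn 3) : Cn 3 :=
  ![jj g z * W 0 + (g 1 0 : ℂ) * t * X 0, W 1, W 2]

theorem NX_group (g : SL(2, ℝ)) {z : ℂ} (hz : 0 < z.im) (X : Cn 3) :
    NX (nn g z / jj g z) (dg (jj g z) X) = NX z X := by
  have hj := (Complex.normSq_pos.2 (jj_ne g hz)).ne'
  unfold NX
  rw [im_mob g hz]
  show z.im / normSq (jj g z) * normSq (jj g z * X 0) + normSq (X 1) + normSq (X 2) = _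
  rw [Complex.normSq_mul]
  field_simp

theorem SX_group (g : SL(2, ℝ)) {z : ℂ} (hz : 0 < z.im) (X : Cn 3) :
    SX (nn g z / jj g z) (dg (jj g z) X) = SX z X := by
  unfold SX
  rw [NX_group g hz]
  rfl

theorem im_jj (g : SL(2, ℝ)) (z : ℂ) : (jj g z).im = g 1 0 * z.im := by
  simp [jj]

theorem wt_group (g : SL(2, ℝ)) {z : ℂ} (hz : 0 < z.im) (X : Cn 3) (t : ℂ) (W : Cn 3) :
    wt (nn g z / jj g z) (dg (jj g z) X) (t / jj g z ^ 2) (dH g z X t W) =
      jj g z * wt z X t W := by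
  have hj := jj_ne g hz
  have hzc : (z.im : ℂ) ≠ 0 := by exact_mod_cast hz.ne'
  have h1 : ((normSq (jj g z) : ℝ) : ℂ) = jj g z * conj (jj g z) := (Complex.mul_conj _).symm
  have h2 : conj (jj g z) = jj g z - 2 * Complex.I * ((g 1 0 : ℂ) * (z.im : ℂ)) := by
    have h3 : ((jj g z).im : ℂ) = (g 1 0 : ℂ) * (z.im : ℂ) := by rw [im_jj]; push_cast; rfl
    have h4 := Complex.sub_conj (jj g z)
    rw [← h3]
    push_cast at h4
    linear_combination -h4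
  unfold wt
  rw [im_mob g hz]
  show jj g z * W 0 + (g 1 0 : ℂ) * t * X 0 - Complex.I / (2 * ((z.im / normSq (jj g z) : ℝ) : ℂ)) *
    (t / jj g z ^ 2) * (jj g z * X 0) = _
  push_cast
  rw [h1, h2]
  field_simp
  linear_combination (2 * (g 1 0 : ℂ) * (z.im : ℂ) * t * X 0) * Complex.I_sq

theorem QX_group (g : SL(2, ℝ)) {z : ℂ} (hz : 0 < z.im) (X : Cn 3) (t : ℂ) (W : Cn 3) :
    QX (nn g z / jj g z) (dg (jj g z) X) (t / jj g z ^ 2) (dH g z X t W) = QX z X t W := by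
  have hj := (Complex.normSq_pos.2 (jj_ne g hz)).ne'
  unfold QX
  rw [wt_group g hz, im_mob g hz]
  show z.im / normSq (jj g z) * normSq (jj g z * X 0 * W 1 - X 1 * (jj g z * wt z X t W)) +
    z.im / normSq (jj g z) * normSq (jj g z * X 0 * W 2 - X 2 * (jj g z * wt z X t W)) +
    normSq (X 1 * W 2 - X 2 * W 1) = _
  have e1 : jj g z * X 0 * W 1 - X 1 * (jj g z * wt z X t W) =
    jj g z * (X 0 * W 1 - X 1 * wt z X t W) := by ring
  have e2 : jj g z * X 0 * W 2 - X 2 * (jj g z * wt z X t W) =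
    jj g z * (X 0 * W 2 - X 2 * wt z X t W) := by ring
  rw [e1, e2]
  simp only [Complex.normSq_mul (jj g z)]
  field_simp

theorem TT_group (g : SL(2, ℝ)) {z : ℂ} (hz : 0 < z.im) (X : Cn 3) (t : ℂ) (W : Cn 3) :
    TT (nn g z / jj g z) (dg (jj g z) X) (t / jj g z ^ 2) (dH g z X t W) = TT z X t W := by
  have hj := (Complex.normSq_pos.2 (jj_ne g hz)).ne'
  unfold TT
  rw [QX_group g hz, NX_group g hz, SX_group g hz, im_mob g hz, Complex.normSq_div, map_pow]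
  congr 2
  field_simp

/-- The derivative of `ins i`. -/
noncomputable def dins (i : Fin 3) (v : Cn 3) : Cn 3 :=
  ![![0, v 1, v 2], ![v 1, 0, v 2], ![v 1, v 2, 0]] i

/-- `Θ` in the three charts. -/
noncomputable def thi (i : Fin 3) (p : Cn 3) : M3 := ![Th p, Th1 p, Th1 p] i

theorem normSq_coe (a : ℂ) : ((normSq a : ℝ) : ℂ) = a * conj a := (Complex.mul_conj a).symm

theorem hf_three (A : M3) (v : Cn 3) : hf A v =
    A 0 0 * v 0 * conj (v 0) + A 0 1 * v 0 * conj (v 1) + A 0 2 * v 0 * conj (v 2) +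
    (A 1 0 * v 1 * conj (v 0) + A 1 1 * v 1 * conj (v 1) + A 1 2 * v 1 * conj (v 2)) +
    (A 2 0 * v 2 * conj (v 0) + A 2 1 * v 2 * conj (v 1) + A 2 2 * v 2 * conj (v 2)) := by
  unfold hf
  simp only [Fin.sum_univ_three]

theorem hf_thi_zero {p : Cn 3} (hp : p ∈ UU) (v : Cn 3) :
    hf (Th p) v = (TT (p 0) (ins 0 p) (v 0) (dins 0 v) : ℂ) := by
  have hp' : 0 < (p 0).im := hp
  have hy : ((p 0).im : ℂ) ≠ 0 := by exact_mod_cast hp'.ne'
  have hN : 0 < NX (p 0) (ins 0 p) := NX_pos hp (ins_ne 0 p)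
  have hNc : (NX (p 0) (ins 0 p) : ℂ) ≠ 0 := by exact_mod_cast hN.ne'
  have hNN : (Nn p : ℂ) = (NX (p 0) (ins 0 p) : ℂ) := by
    congr 1
    unfold Nn nsq NX
    show _ = (p 0).im * normSq (1 : ℂ) + normSq (p 1) + normSq (p 2)
    rw [map_one]; ring
  have hexp : (NX (p 0) (ins 0 p) : ℂ) = ((p 0).im : ℂ) + p 1 * conj (p 1) + p 2 * conj (p 2) := by
    rw [← hNN]
    unfold Nn nsq
    push_cast
    rw [normSq_coe, normSq_coe]
    ring
  rw [hf_three]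
  unfold TT SX QX wt
  show (-(1 / (4 * (Nn p : ℂ) ^ 2)) + 1 / (4 * ((p 0).im : ℂ) ^ 2)) * v 0 * conj (v 0) +
    (Complex.I / 2 * p 1 / (Nn p : ℂ) ^ 2) * v 0 * conj (v 1) +
    (Complex.I / 2 * p 2 / (Nn p : ℂ) ^ 2) * v 0 * conj (v 2) +
    (-(Complex.I / 2 * conj (p 1) / (Nn p : ℂ) ^ 2) * v 1 * conj (v 0) +
      (1 / (Nn p : ℂ) - conj (p 1) * p 1 / (Nn p : ℂ) ^ 2) * v 1 * conj (v 1) +
      -(conj (p 1) * p 2 / (Nn p : ℂ) ^ 2) * v 1 * conj (v 2)) +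
    (-(Complex.I / 2 * conj (p 2) / (Nn p : ℂ) ^ 2) * v 2 * conj (v 0) +
      -(conj (p 2) * p 1 / (Nn p : ℂ) ^ 2) * v 2 * conj (v 1) +
      (1 / (Nn p : ℂ) - conj (p 2) * p 2 / (Nn p : ℂ) ^ 2) * v 2 * conj (v 2)) =
    (((((p 0).im * normSq (1 * v 1 - p 1 * (0 - Complex.I / (2 * ((p 0).im : ℂ)) * v 0 * 1)) +
      (p 0).im * normSq (1 * v 2 - p 2 * (0 - Complex.I / (2 * ((p 0).im : ℂ)) * v 0 * 1)) +
      normSq (p 1 * v 2 - p 2 * v 1)) / NX (p 0) (ins 0 p) ^ 2 +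
      (normSq (p 1) + normSq (p 2)) / NX (p 0) (ins 0 p) * (normSq (v 0) / (4 * (p 0).im ^ 2))) : ℝ) : ℂ)
  rw [hNN]
  push_cast
  simp only [normSq_coe, map_sub, map_mul, map_div₀, map_one, map_zero, map_ofNat, Complex.conj_I,
    Complex.conj_ofReal]
  set n := (NX (p 0) (ins 0 p) : ℂ) with hn
  field_simp
  rw [hexp]
  ring_nf
  simp only [Complex.I_sq]
  ring

theorem hf_thi_one {p : Cn 3} (hp : p ∈ UU) (v : Cn 3) :
    hf (Th1 p) v = (TT (p 0) (ins 1 p) (v 0) (dins 1 v) : ℂ) := by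
  have hp' : 0 < (p 0).im := hp
  have hy : ((p 0).im : ℂ) ≠ 0 := by exact_mod_cast hp'.ne'
  have hN : 0 < NX (p 0) (ins 1 p) := NX_pos hp (ins_ne 1 p)
  have hNc : (NX (p 0) (ins 1 p) : ℂ) ≠ 0 := by exact_mod_cast hN.ne'
  have hNN : (N1 p : ℂ) = (NX (p 0) (ins 1 p) : ℂ) := by
    congr 1
    unfold N1 NX
    show _ = (p 0).im * normSq (p 1) + normSq (1 : ℂ) + normSq (p 2)
    rw [map_one]
  have hexp : (NX (p 0) (ins 1 p) : ℂ) =
      ((p 0).im : ℂ) * (p 1 * conj (p 1)) + 1 + p 2 * conj (p 2) := by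
    rw [← hNN]
    unfold N1
    push_cast
    rw [normSq_coe, normSq_coe]
  rw [hf_three]
  unfold TT SX QX wt
  show (-((p 1 * conj (p 1)) ^ 2 / (4 * (N1 p : ℂ) ^ 2)) + 1 / (4 * ((p 0).im : ℂ) ^ 2)) * v 0 *
      conj (v 0) +
    -(Complex.I / 2 * p 1 * (1 + p 2 * conj (p 2)) / (N1 p : ℂ) ^ 2) * v 0 * conj (v 1) +
    Complex.I / 2 * (p 1 * conj (p 1)) * p 2 / (N1 p : ℂ) ^ 2 * v 0 * conj (v 2) +
    (Complex.I / 2 * conj (p 1) * (1 + p 2 * conj (p 2)) / (N1 p : ℂ) ^ 2 * v 1 * conj (v 0) +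
      ((p 0).im : ℂ) * (1 + p 2 * conj (p 2)) / (N1 p : ℂ) ^ 2 * v 1 * conj (v 1) +
      -(((p 0).im : ℂ) * conj (p 1) * p 2 / (N1 p : ℂ) ^ 2) * v 1 * conj (v 2)) +
    (-(Complex.I / 2 * (p 1 * conj (p 1)) * conj (p 2) / (N1 p : ℂ) ^ 2) * v 2 * conj (v 0) +
      -(((p 0).im : ℂ) * p 1 * conj (p 2) / (N1 p : ℂ) ^ 2) * v 2 * conj (v 1) +
      (((p 0).im : ℂ) * (p 1 * conj (p 1)) + 1) / (N1 p : ℂ) ^ 2 * v 2 * conj (v 2)) =
    (((((p 0).im * normSq (p 1 * 0 - 1 * (v 1 - Complex.I / (2 * ((p 0).im : ℂ)) * v 0 * p 1)) +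
      (p 0).im * normSq (p 1 * v 2 - p 2 * (v 1 - Complex.I / (2 * ((p 0).im : ℂ)) * v 0 * p 1)) +
      normSq (1 * v 2 - p 2 * 0)) / NX (p 0) (ins 1 p) ^ 2 +
      (normSq (1 : ℂ) + normSq (p 2)) / NX (p 0) (ins 1 p) *
        (normSq (v 0) / (4 * (p 0).im ^ 2))) : ℝ) : ℂ)
  rw [hNN]
  push_cast
  simp only [normSq_coe, map_sub, map_mul, map_div₀, map_one, map_zero, map_ofNat, Complex.conj_I,
    Complex.conj_ofReal]
  set n := (NX (p 0) (ins 1 p) : ℂ) with hn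
  field_simp
  rw [hexp]
  ring_nf
  simp only [Complex.I_sq, Complex.ofReal_one]
  ring

theorem hf_thi_two {p : Cn 3} (hp : p ∈ UU) (v : Cn 3) :
    hf (Th1 p) v = (TT (p 0) (ins 2 p) (v 0) (dins 2 v) : ℂ) := by
  rw [hf_thi_one hp]
  congr 1
  have e1 : normSq (p 1 * 0 - 1 * (v 1 - Complex.I / (2 * ((p 0).im : ℂ)) * v 0 * p 1)) =
      normSq (p 1 * 0 - 1 * (v 1 - Complex.I / (2 * ((p 0).im : ℂ)) * v 0 * p 1)) := rfl
  have hN : NX (p 0) (ins 1 p) = NX (p 0) (ins 2 p) := by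
    show (p 0).im * normSq (p 1) + normSq (1 : ℂ) + normSq (p 2) =
      (p 0).im * normSq (p 1) + normSq (p 2) + normSq (1 : ℂ)
    ring
  have hS : SX (p 0) (ins 1 p) = SX (p 0) (ins 2 p) := by
    unfold SX
    rw [hN]
    show (normSq (1 : ℂ) + normSq (p 2)) / _ = (normSq (p 2) + normSq (1 : ℂ)) / _
    rw [add_comm]
  have hQ : QX (p 0) (ins 1 p) (v 0) (dins 1 v) = QX (p 0) (ins 2 p) (v 0) (dins 2 v) := by
    show (p 0).im * normSq (p 1 * 0 - 1 * (v 1 - Complex.I / (2 * ((p 0).im : ℂ)) * v 0 * p 1)) +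
      (p 0).im * normSq (p 1 * v 2 - p 2 * (v 1 - Complex.I / (2 * ((p 0).im : ℂ)) * v 0 * p 1)) +
      normSq (1 * v 2 - p 2 * 0) =
      (p 0).im * normSq (p 1 * v 2 - p 2 * (v 1 - Complex.I / (2 * ((p 0).im : ℂ)) * v 0 * p 1)) +
      (p 0).im * normSq (p 1 * 0 - 1 * (v 1 - Complex.I / (2 * ((p 0).im : ℂ)) * v 0 * p 1)) +
      normSq (p 2 * 0 - 1 * v 2)
    have e3 : normSq (1 * v 2 - p 2 * 0) = normSq (p 2 * 0 - 1 * v 2) := by
      rw [← Complex.normSq_neg]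
      congr 1
      ring
    rw [e3]
    ring
  unfold TT
  rw [hN, hS, hQ]

theorem hf_thi (i : Fin 3) {p : Cn 3} (hp : p ∈ UU) (v : Cn 3) :
    hf (thi i p) v = (TT (p 0) (ins i p) (v 0) (dins i v) : ℂ) := by
  fin_cases i
  · exact hf_thi_zero hp v
  · exact hf_thi_one hp v
  · exact hf_thi_two hp v

theorem hf_omC (p v : Cn 3) : hf (omC p) v = ((normSq (v 0) / (2 * (p 0).im ^ 2) : ℝ) : ℂ) := by
  rw [hf_three]
  simp only [omC, Matrix.cons_val', Matrix.cons_val_zero, Matrix.cons_val_one, Matrix.cons_val,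
    Matrix.of_apply]
  push_cast
  rw [normSq_coe]
  ring

/-- `σ` in the three charts. -/
noncomputable def sgi (i : Fin 3) (p : Cn 3) : ℝ := ![sig p, sig1 p, sig1 p] i

theorem sgi_eq (i : Fin 3) (p : Cn 3) : sgi i p = SX (p 0) (ins i p) := by
  fin_cases i
  · show nsq p / Nn p = (normSq (p 1) + normSq (p 2)) /
      ((p 0).im * normSq (1 : ℂ) + normSq (p 1) + normSq (p 2))
    unfold Nn nsq
    rw [map_one, mul_one, add_assoc]
  · show sig1 p = (normSq (1 : ℂ) + normSq (p 2)) /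
      ((p 0).im * normSq (p 1) + normSq (1 : ℂ) + normSq (p 2))
    unfold sig1 N1
    rw [map_one]
  · show sig1 p = (normSq (p 2) + normSq (1 : ℂ)) /
      ((p 0).im * normSq (p 1) + normSq (p 2) + normSq (1 : ℂ))
    unfold sig1 N1
    rw [map_one]
    congr 1 <;> ring

/-- the derivative of `ins`, `hom`, `FF`. -/
theorem hasFDerivAt_apply (k : Fin 3) (p : Cn 3) :
    HasFDerivAt (𝕜 := ℂ) (fun q : Cn 3 => q k) (ContinuousLinearMap.proj k) p :=
  (ContinuousLinearMap.proj (R := ℂ) (φ := fun _ : Fin 3 => ℂ) k).hasFDerivAt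

theorem deriv_jj (g : SL(2, ℝ)) (p : Cn 3) :
    HasFDerivAt (𝕜 := ℂ) (fun q : Cn 3 => jj g (q 0))
      ((g 1 0 : ℂ) • ContinuousLinearMap.proj (R := ℂ) (φ := fun _ : Fin 3 => ℂ) 0) p := by
  unfold jj
  exact ((hasFDerivAt_apply 0 p).const_mul _).add_const _

theorem deriv_nn (g : SL(2, ℝ)) (p : Cn 3) :
    HasFDerivAt (𝕜 := ℂ) (fun q : Cn 3 => nn g (q 0))
      ((g 0 0 : ℂ) • ContinuousLinearMap.proj (R := ℂ) (φ := fun _ : Fin 3 => ℂ) 0) p := by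
  unfold nn
  exact ((hasFDerivAt_apply 0 p).const_mul _).add_const _

theorem deriv_ins (i k : Fin 3) (p : Cn 3) : ∃ L : Cn 3 →L[ℂ] ℂ,
    HasFDerivAt (𝕜 := ℂ) (fun q : Cn 3 => ins i q k) L p ∧ ∀ v, L v = dins i v k := by
  fin_cases i <;> fin_cases k <;>
  first
  | exact ⟨0, hasFDerivAt_const _ _, fun _ => rfl⟩
  | exact ⟨_, hasFDerivAt_apply 1 p, fun _ => rfl⟩
  | exact ⟨_, hasFDerivAt_apply 2 p, fun _ => rfl⟩

theorem deriv_hom (g : SL(2, ℝ)) (i k : Fin 3) (p : Cn 3) : ∃ L : Cn 3 →L[ℂ] ℂ,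
    HasFDerivAt (𝕜 := ℂ) (fun q : Cn 3 => hom g i q k) L p ∧
      ∀ v, L v = dH g (p 0) (ins i p) (v 0) (dins i v) k := by
  obtain ⟨L0, h0, h0'⟩ := deriv_ins i 0 p
  obtain ⟨L1, h1, h1'⟩ := deriv_ins i 1 p
  obtain ⟨L2, h2, h2'⟩ := deriv_ins i 2 p
  fin_cases k
  · refine ⟨_, (deriv_jj g p).mul h0, fun v => ?_⟩
    show jj g (p 0) • L0 v + ins i p 0 • ((g 1 0 : ℂ) • v 0) = jj g (p 0) * dins i v 0 +
      (g 1 0 : ℂ) * v 0 * ins i p 0
    rw [h0']
    simp only [smul_eq_mul]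
    ring
  · exact ⟨_, h1, h1'⟩
  · exact ⟨_, h2, h2'⟩

theorem deriv_quot {a b : Cn 3 → ℂ} {La Lb : Cn 3 →L[ℂ] ℂ} {p : Cn 3} (ha : HasFDerivAt a La p)
    (hb : HasFDerivAt b Lb p) (h : b p ≠ 0) : ∃ L : Cn 3 →L[ℂ] ℂ,
    HasFDerivAt (fun q => a q / b q) L p ∧ ∀ v, L v = (La v * b p - a p * Lb v) / b p ^ 2 := by
  have h1 := ha.mul ((hasDerivAt_inv h).comp_hasFDerivAt p hb)
  refine ⟨_, h1, fun v => ?_⟩
  simp only [add_apply, smul_apply, smul_eq_mul,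
    Function.comp_apply]
  field_simp
  ring

/-- the derivative of `FF`. -/
theorem fderiv_FF {g : SL(2, ℝ)} {i j : Fin 3} {p : Cn 3} (hp : p ∈ UU) (h : hom g i p j ≠ 0)
    (v : Cn 3) : ∃ w : Cn 3, fderiv ℂ (FF g i j) p v = w ∧ w 0 = v 0 / jj g (p 0) ^ 2 ∧
      dins j w = (hom g i p j)⁻¹ • dH g (p 0) (ins i p) (v 0) (dins i v) +
        (-(dH g (p 0) (ins i p) (v 0) (dins i v) j / hom g i p j ^ 2)) • hom g i p := by
  have hj := jj_ne g hp
  obtain ⟨L0, h0, h0'⟩ := deriv_quot (deriv_nn g p) (deriv_jj g p) hj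
  obtain ⟨Ka, ka, ka'⟩ := deriv_hom g i ((![1, 0, 0] : Fin 3 → Fin 3) j) p
  obtain ⟨Kb, kb, kb'⟩ := deriv_hom g i ((![2, 2, 1] : Fin 3 → Fin 3) j) p
  obtain ⟨Kj, kj, kj'⟩ := deriv_hom g i j p
  obtain ⟨L1, h1, h1'⟩ := deriv_quot ka kj h
  obtain ⟨L2, h2, h2'⟩ := deriv_quot kb kj h
  have hF : HasFDerivAt (FF g i j) (ContinuousLinearMap.pi ![L0, L1, L2]) p := by
    rw [hasFDerivAt_pi']
    intro k
    fin_cases k
    · exact h0
    · exact h1
    · exact h2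
  refine ⟨_, rfl, ?_, ?_⟩
  · rw [hF.fderiv]
    show L0 v = _
    rw [h0']
    show ((g 0 0 : ℂ) • v 0 * jj g (p 0) - nn g (p 0) * ((g 1 0 : ℂ) • v 0)) / jj g (p 0) ^ 2 = _
    congr 1
    have hd : (g 0 0 : ℂ) * (g 1 1 : ℂ) - (g 0 1 : ℂ) * (g 1 0 : ℂ) = 1 := by
      exact_mod_cast det_eq g
    simp only [jj, nn, smul_eq_mul]
    linear_combination v 0 * hd
  · rw [hF.fderiv]
    have e0 : (ContinuousLinearMap.pi ![L0, L1, L2] : Cn 3 →L[ℂ] Cn 3) v = ![L0 v, L1 v, L2 v] := by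
      funext k
      fin_cases k <;> rfl
    rw [e0, h1', h2', ka', kb', kj']
    generalize dH g (p 0) (ins i p) (v 0) (dins i v) = D at *
    generalize hom g i p = H at *
    funext k
    fin_cases j <;> fin_cases k <;> simp [dins] at h ⊢ <;> field_simp <;> ring

theorem TT_FF {g : SL(2, ℝ)} {i j : Fin 3} {p : Cn 3} (hp : p ∈ UU) (h : hom g i p j ≠ 0)
    (v : Cn 3) : TT (FF g i j p 0) (ins j (FF g i j p)) (fderiv ℂ (FF g i j) p v 0)
      (dins j (fderiv ℂ (FF g i j) p v)) = TT (p 0) (ins i p) (v 0) (dins i v) := by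
  obtain ⟨w, hw, hw0, hw1⟩ := fderiv_FF hp h v
  rw [hw, hw0, hw1]
  have h1 : ins j (FF g i j p) = (hom g i p j)⁻¹ • hom g i p := ins_outc j h _
  rw [h1, TT_scale _ _ _ _ (inv_ne_zero h), hom_eq]
  exact TT_group g hp _ _ _

theorem sgi_FF {g : SL(2, ℝ)} {i j : Fin 3} {p : Cn 3} (hp : p ∈ UU) (h : hom g i p j ≠ 0) :
    sgi j (FF g i j p) = sgi i p := by
  rw [sgi_eq, sgi_eq]
  have h1 : ins j (FF g i j p) = (hom g i p j)⁻¹ • hom g i p := ins_outc j h _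
  rw [h1, SX_smul _ _ (inv_ne_zero h), hom_eq]
  exact SX_group g hp _

theorem compat_thi {g : SL(2, ℝ)} {i j : Fin 3} {p : Cn 3} (hp : p ∈ UU) (h : hom g i p j ≠ 0)
    (v : Cn 3) : hf (thi i p) v = hf (thi j (FF g i j p)) (fderiv ℂ (FF g i j) p v) := by
  rw [hf_thi i hp, hf_thi j (FF_mem hp), TT_FF hp h]

theorem compat_omC {g : SL(2, ℝ)} {i j : Fin 3} {p : Cn 3} (hp : p ∈ UU) (h : hom g i p j ≠ 0)
    (v : Cn 3) : hf (omC p) v = hf (omC (FF g i j p)) (fderiv ℂ (FF g i j) p v) := by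
  obtain ⟨w, hw, hw0, hw1⟩ := fderiv_FF hp h v
  rw [hf_omC, hf_omC, hw, hw0]
  congr 1
  show _ = normSq (v 0 / jj g (p 0) ^ 2) / (2 * (nn g (p 0) / jj g (p 0)).im ^ 2)
  rw [im_mob g hp, Complex.normSq_div, map_pow]
  have hj := (Complex.normSq_pos.2 (jj_ne g hp)).ne'
  field_simp

/-! ### Positivity -/

theorem QX_nonneg {z : ℂ} (hz : 0 < z.im) (X : Cn 3) (t : ℂ) (W : Cn 3) : 0 ≤ QX z X t W := by
  unfold QX
  have := Complex.normSq_nonneg (X 0 * W 1 - X 1 * wt z X t W)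
  have := Complex.normSq_nonneg (X 0 * W 2 - X 2 * wt z X t W)
  have := Complex.normSq_nonneg (X 1 * W 2 - X 2 * W 1)
  positivity

theorem QX_pos (i : Fin 3) {p : Cn 3} (hp : p ∈ UU) {v : Cn 3} (hv : v ≠ 0) (h0 : v 0 = 0) :
    0 < QX (p 0) (ins i p) (v 0) (dins i v) := by
  have hz : 0 < (p 0).im := hp
  have h12 : v 1 ≠ 0 ∨ v 2 ≠ 0 := by
    by_contra hcon
    push Not at hcon
    apply hv
    funext k
    fin_cases k
    · exact h0
    · exact hcon.1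
    · exact hcon.2
  have hw : wt (p 0) (ins i p) (v 0) (dins i v) = dins i v 0 := by
    unfold wt
    rw [h0]
    ring
  unfold QX
  rw [hw]
  have hn : ∀ a : ℂ, 0 ≤ normSq a := Complex.normSq_nonneg
  have hpos : ∀ a : ℂ, a ≠ 0 → 0 < normSq a := fun a ha => Complex.normSq_pos.2 ha
  fin_cases i
  · show 0 < (p 0).im * normSq (1 * v 1 - p 1 * 0) + (p 0).im * normSq (1 * v 2 - p 2 * 0) +
      normSq (p 1 * v 2 - p 2 * v 1)
    have e1 : (1 : ℂ) * v 1 - p 1 * 0 = v 1 := by ring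
    have e2 : (1 : ℂ) * v 2 - p 2 * 0 = v 2 := by ring
    rw [e1, e2]
    have a1 := hn (v 1)
    have a2 := hn (v 2)
    have a3 := hn (p 1 * v 2 - p 2 * v 1)
    rcases h12 with h | h
    · have := hpos _ h
      positivity
    · have := hpos _ h
      positivity
  · show 0 < (p 0).im * normSq (p 1 * 0 - 1 * v 1) + (p 0).im * normSq (p 1 * v 2 - p 2 * v 1) +
      normSq (1 * v 2 - p 2 * 0)
    have e1 : p 1 * 0 - 1 * v 1 = -v 1 := by ring
    have e2 : (1 : ℂ) * v 2 - p 2 * 0 = v 2 := by ring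
    rw [e1, e2, Complex.normSq_neg]
    have a1 := hn (v 1)
    have a2 := hn (v 2)
    have a3 := hn (p 1 * v 2 - p 2 * v 1)
    rcases h12 with h | h
    · have := hpos _ h
      positivity
    · have := hpos _ h
      positivity
  · show 0 < (p 0).im * normSq (p 1 * v 2 - p 2 * v 1) + (p 0).im * normSq (p 1 * 0 - 1 * v 1) +
      normSq (p 2 * 0 - 1 * v 2)
    have e1 : p 1 * 0 - 1 * v 1 = -v 1 := by ring
    have e2 : p 2 * 0 - 1 * v 2 = -v 2 := by ring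
    rw [e1, e2, Complex.normSq_neg, Complex.normSq_neg]
    have a1 := hn (v 1)
    have a2 := hn (v 2)
    have a3 := hn (p 1 * v 2 - p 2 * v 1)
    rcases h12 with h | h
    · have := hpos _ h
      positivity
    · have := hpos _ h
      positivity

theorem SX_mem {z : ℂ} (hz : 0 < z.im) {X : Cn 3} (hX : X ≠ 0) : 0 ≤ SX z X ∧ SX z X ≤ 1 := by
  have hN := NX_pos hz hX
  have h0 := Complex.normSq_nonneg (X 0)
  have h1 := Complex.normSq_nonneg (X 1)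
  have h2 := Complex.normSq_nonneg (X 2)
  refine ⟨div_nonneg (add_nonneg h1 h2) hN.le, ?_⟩
  unfold SX
  rw [div_le_one hN]
  unfold NX
  have := mul_nonneg hz.le h0
  linarith

/-- positivity of `a Θ + b ω_C` if `a > 0` and `a σ / 2 + b > 0`. -/
theorem comb_pos (i : Fin 3) {p : Cn 3} (hp : p ∈ UU) {a b : ℝ} (ha : 0 < a)
    (hb : 0 < a * (sgi i p / 2) + b) {v : Cn 3} (hv : v ≠ 0) :
    0 < (hf ((a : ℂ) • thi i p + (b : ℂ) • omC p) v).re := by
  have hz : 0 < (p 0).im := hp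
  have h1 : hf ((a : ℂ) • thi i p + (b : ℂ) • omC p) v =
      ((a * TT (p 0) (ins i p) (v 0) (dins i v) + b * (normSq (v 0) / (2 * (p 0).im ^ 2)) : ℝ) : ℂ) := by
    have e1 : hf ((a : ℂ) • thi i p + (b : ℂ) • omC p) v =
        (a : ℂ) * hf (thi i p) v + (b : ℂ) * hf (omC p) v := by
      rw [hf_add_left]
      unfold hf
      simp only [Matrix.smul_apply, smul_eq_mul, Finset.mul_sum]
      congr 1 <;> refine Finset.sum_congr rfl fun j _ => Finset.sum_congr rfl fun k _ => ?_ <;> ring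
    rw [e1, hf_thi i hp, hf_omC]
    push_cast
    ring
  rw [h1, Complex.ofReal_re]
  unfold TT
  rw [← sgi_eq]
  have hN := NX_pos hz (ins_ne i p)
  have hQ := QX_nonneg hz (ins i p) (v 0) (dins i v)
  by_cases h0 : v 0 = 0
  · have hQ' := QX_pos i hp hv h0
    have : 0 < a * (QX (p 0) (ins i p) (v 0) (dins i v) / NX (p 0) (ins i p) ^ 2) := by positivity
    rw [h0] at this ⊢
    rw [h0] at hQ'
    simp only [map_zero, zero_div, mul_zero, add_zero]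
    exact this
  · have h2 : 0 < normSq (v 0) := Complex.normSq_pos.2 h0
    have h3 : 0 ≤ a * (QX (p 0) (ins i p) (v 0) (dins i v) / NX (p 0) (ins i p) ^ 2) := by positivity
    have h4 : 0 < (a * (sgi i p / 2) + b) * (normSq (v 0) / (2 * (p 0).im ^ 2)) := by positivity
    have h5 : a * (QX (p 0) (ins i p) (v 0) (dins i v) / NX (p 0) (ins i p) ^ 2 +
        sgi i p * (normSq (v 0) / (4 * (p 0).im ^ 2))) + b * (normSq (v 0) / (2 * (p 0).im ^ 2)) =
        a * (QX (p 0) (ins i p) (v 0) (dins i v) / NX (p 0) (ins i p) ^ 2) +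
        (a * (sgi i p / 2) + b) * (normSq (v 0) / (2 * (p 0).im ^ 2)) := by
      ring
    rw [h5]
    linarith

/-! ### Smoothness and symmetry -/

theorem cd_coord (k : Fin 3) : ContDiffOn ℝ ∞ (fun p : Cn 3 => p k) UU :=
  (contDiff_apply ℝ ℂ k).contDiffOn

theorem cd_conj (k : Fin 3) : ContDiffOn ℝ ∞ (fun p : Cn 3 => conj (p k)) UU :=
  (Complex.conjCLE.contDiff.comp (contDiff_apply ℝ ℂ k)).contDiffOn

theorem cd_imR : ContDiffOn ℝ ∞ (fun p : Cn 3 => (p 0).im) UU :=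
  (Complex.imCLM.contDiff.comp (contDiff_apply ℝ ℂ 0)).contDiffOn

theorem cd_ofReal {f : Cn 3 → ℝ} (hf : ContDiffOn ℝ ∞ f UU) :
    ContDiffOn ℝ ∞ (fun p : Cn 3 => (f p : ℂ)) UU :=
  Complex.ofRealCLM.contDiff.comp_contDiffOn hf

theorem cd_im : ContDiffOn ℝ ∞ (fun p : Cn 3 => ((p 0).im : ℂ)) UU := cd_ofReal cd_imR

theorem cd_normSq (k : Fin 3) : ContDiffOn ℝ ∞ (fun p : Cn 3 => normSq (p k)) UU := by
  have h : (fun p : Cn 3 => normSq (p k)) = fun p : Cn 3 => (p k).re * (p k).re +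
      (p k).im * (p k).im := by
    funext p
    exact Complex.normSq_apply _
  rw [h]
  have h1 : ContDiffOn ℝ ∞ (fun p : Cn 3 => (p k).re) UU :=
    (Complex.reCLM.contDiff.comp (contDiff_apply ℝ ℂ k)).contDiffOn
  have h2 : ContDiffOn ℝ ∞ (fun p : Cn 3 => (p k).im) UU :=
    (Complex.imCLM.contDiff.comp (contDiff_apply ℝ ℂ k)).contDiffOn
  exact (h1.mul h1).add (h2.mul h2)

theorem Nn_pos' {p : Cn 3} (hp : p ∈ UU) : 0 < Nn p := by
  have hp' : 0 < (p 0).im := hp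
  have h1 := Complex.normSq_nonneg (p 1)
  have h2 := Complex.normSq_nonneg (p 2)
  unfold Nn nsq
  linarith

theorem N1_pos {p : Cn 3} (hp : p ∈ UU) : 0 < N1 p := by
  have hp' : 0 < (p 0).im := hp
  have h1 := Complex.normSq_nonneg (p 1)
  have h2 := Complex.normSq_nonneg (p 2)
  have h3 := mul_nonneg hp'.le h1
  unfold N1
  linarith

theorem cd_Nn : ContDiffOn ℝ ∞ Nn UU := cd_imR.add ((cd_normSq 1).add (cd_normSq 2))

theorem cd_N1 : ContDiffOn ℝ ∞ N1 UU :=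
  ((cd_imR.mul (cd_normSq 1)).add contDiffOn_const).add (cd_normSq 2)

theorem cd_sgi (i : Fin 3) : ContDiffOn ℝ ∞ (sgi i) UU := by
  fin_cases i
  · exact ((cd_normSq 1).add (cd_normSq 2)).div cd_Nn fun p hp => (Nn_pos' hp).ne'
  · exact (contDiffOn_const.add (cd_normSq 2)).div cd_N1 fun p hp => (N1_pos hp).ne'
  · exact (contDiffOn_const.add (cd_normSq 2)).div cd_N1 fun p hp => (N1_pos hp).ne'

theorem ofReal_ne {a : ℝ} (h : 0 < a) : (a : ℂ) ≠ 0 := by exact_mod_cast h.ne'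

theorem cdiv {f g : Cn 3 → ℂ} (hf : ContDiffOn ℝ ∞ f UU) (hg : ContDiffOn ℝ ∞ g UU)
    (h : ∀ p ∈ UU, g p ≠ 0) : ContDiffOn ℝ ∞ (fun p => f p / g p) UU := by
  simp only [div_eq_mul_inv]
  exact hf.mul (hg.inv h)

theorem cconst (c : ℂ) : ContDiffOn ℝ ∞ (fun _ : Cn 3 => c) UU := contDiffOn_const

theorem cd_omC (j k : Fin 3) : ContDiffOn ℝ ∞ (fun p => omC p j k) UU := by
  fin_cases j <;> fin_cases k <;> first | exact contDiffOn_const | skip
  exact cdiv (cconst 1) ((cconst 2).mul (cd_im.pow 2)) fun p hp =>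
    mul_ne_zero two_ne_zero (pow_ne_zero 2 (ofReal_ne hp))

theorem cd_Th (j k : Fin 3) : ContDiffOn ℝ ∞ (fun p => Th p j k) UU := by
  have hn := cd_ofReal cd_Nn
  have hn2 : ∀ p ∈ UU, (Nn p : ℂ) ^ 2 ≠ 0 := fun p hp => pow_ne_zero 2 (ofReal_ne (Nn_pos' hp))
  have hn1 : ∀ p ∈ UU, (Nn p : ℂ) ≠ 0 := fun p hp => ofReal_ne (Nn_pos' hp)
  have hn4 : ∀ p ∈ UU, 4 * (Nn p : ℂ) ^ 2 ≠ 0 := fun p hp => mul_ne_zero (by norm_num) (hn2 p hp)
  have hy4 : ∀ p ∈ UU, 4 * ((p 0).im : ℂ) ^ 2 ≠ 0 := fun p hp =>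
    mul_ne_zero (by norm_num) (pow_ne_zero 2 (ofReal_ne hp))
  have c1 := cd_coord 1
  have c2 := cd_coord 2
  have d1 := cd_conj 1
  have d2 := cd_conj 2
  fin_cases j <;> fin_cases k
  · exact (cdiv (cconst 1) ((cconst 4).mul (hn.pow 2)) hn4).neg.add
      (cdiv (cconst 1) ((cconst 4).mul (cd_im.pow 2)) hy4)
  · exact cdiv ((cconst _).mul c1) (hn.pow 2) hn2
  · exact cdiv ((cconst _).mul c2) (hn.pow 2) hn2
  · exact (cdiv ((cconst _).mul d1) (hn.pow 2) hn2).neg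
  · exact (cdiv (cconst 1) hn hn1).sub (cdiv (d1.mul c1) (hn.pow 2) hn2)
  · exact (cdiv (d1.mul c2) (hn.pow 2) hn2).neg
  · exact (cdiv ((cconst _).mul d2) (hn.pow 2) hn2).neg
  · exact (cdiv (d2.mul c1) (hn.pow 2) hn2).neg
  · exact (cdiv (cconst 1) hn hn1).sub (cdiv (d2.mul c2) (hn.pow 2) hn2)

theorem cd_Th1 (j k : Fin 3) : ContDiffOn ℝ ∞ (fun p => Th1 p j k) UU := by
  have hn := cd_ofReal cd_N1
  have hn2 : ∀ p ∈ UU, (N1 p : ℂ) ^ 2 ≠ 0 := fun p hp => pow_ne_zero 2 (ofReal_ne (N1_pos hp))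
  have hn4 : ∀ p ∈ UU, 4 * (N1 p : ℂ) ^ 2 ≠ 0 := fun p hp => mul_ne_zero (by norm_num) (hn2 p hp)
  have hy4 : ∀ p ∈ UU, 4 * ((p 0).im : ℂ) ^ 2 ≠ 0 := fun p hp =>
    mul_ne_zero (by norm_num) (pow_ne_zero 2 (ofReal_ne hp))
  have c1 := cd_coord 1
  have c2 := cd_coord 2
  have d1 := cd_conj 1
  have d2 := cd_conj 2
  fin_cases j <;> fin_cases k
  · exact (cdiv ((c1.mul d1).pow 2) ((cconst 4).mul (hn.pow 2)) hn4).neg.add
      (cdiv (cconst 1) ((cconst 4).mul (cd_im.pow 2)) hy4)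
  · exact (cdiv (((cconst _).mul c1).mul ((cconst 1).add (c2.mul d2))) (hn.pow 2) hn2).neg
  · exact cdiv (((cconst _).mul (c1.mul d1)).mul c2) (hn.pow 2) hn2
  · exact cdiv (((cconst _).mul d1).mul ((cconst 1).add (c2.mul d2))) (hn.pow 2) hn2
  · exact cdiv (cd_im.mul ((cconst 1).add (c2.mul d2))) (hn.pow 2) hn2
  · exact (cdiv ((cd_im.mul d1).mul c2) (hn.pow 2) hn2).neg
  · exact (cdiv (((cconst _).mul (c1.mul d1)).mul d2) (hn.pow 2) hn2).neg
  · exact (cdiv ((cd_im.mul c1).mul d2) (hn.pow 2) hn2).neg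
  · exact cdiv ((cd_im.mul (c1.mul d1)).add (cconst 1)) (hn.pow 2) hn2

theorem cd_thi (i j k : Fin 3) : ContDiffOn ℝ ∞ (fun p => thi i p j k) UU := by
  fin_cases i
  · exact cd_Th j k
  · exact cd_Th1 j k
  · exact cd_Th1 j k

theorem herm_thi (i : Fin 3) (p : Cn 3) : (thi i p).IsHermitian := by
  have h0 : (Th p).IsHermitian := by
    ext j k
    rw [Matrix.conjTranspose_apply]
    fin_cases j <;> fin_cases k <;>
      simp [Th, Complex.conj_ofReal] <;> ring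
  have h1 : (Th1 p).IsHermitian := by
    ext j k
    rw [Matrix.conjTranspose_apply]
    fin_cases j <;> fin_cases k <;>
      simp [Th1, Complex.conj_ofReal] <;> ring
  fin_cases i
  · exact h0
  · exact h1
  · exact h1

theorem herm_omC (p : Cn 3) : (omC p).IsHermitian := by
  ext j k
  rw [Matrix.conjTranspose_apply]
  fin_cases j <;> fin_cases k <;> simp [omC, Complex.conj_ofReal]

theorem herm_comb (i : Fin 3) (p : Cn 3) (a b : ℝ) :
    ((a : ℂ) • thi i p + (b : ℂ) • omC p).IsHermitian := by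
  have h1 := herm_thi i p
  have h2 := herm_omC p
  unfold Matrix.IsHermitian at *
  rw [Matrix.conjTranspose_add, Matrix.conjTranspose_smul, Matrix.conjTranspose_smul, h1, h2]
  simp [Complex.conj_ofReal]

theorem mg0_eq (i : Fin 3) (p : Cn 3) :
    mg0 i p = ((1 : ℝ) : ℂ) • thi i p + ((1 / 2 : ℝ) : ℂ) • omC p := by
  have : ((1 / 2 : ℝ) : ℂ) = 1 / 2 := by push_cast; rfl
  rw [this, Complex.ofReal_one, one_smul]
  fin_cases i <;> rfl

theorem mG_eq (i : Fin 3) (p : Cn 3) :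
    mG i p = (f1 (sgi i p) : ℂ) • thi i p + (f2 (sgi i p) : ℂ) • omC p := by
  fin_cases i <;> rfl

theorem isMet_comb {F1 F2 : ℝ → ℝ} {m : Fin 3 → Cn 3 → M3}
    (hm : ∀ i p, m i p = (F1 (sgi i p) : ℂ) • thi i p + (F2 (sgi i p) : ℂ) • omC p)
    (h1 : ContDiff ℝ ∞ F1) (h2 : ContDiff ℝ ∞ F2) (h3 : ∀ x, 0 ≤ x → x ≤ 1 → 0 < F1 x)
    (h4 : ∀ x, 0 ≤ x → x ≤ 1 → 0 < F1 x * (x / 2) + F2 x) : IsMet m where
  smooth := by
    intro i j k
    have e : (fun p => m i p j k) = fun p => (F1 (sgi i p) : ℂ) * thi i p j k +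
        (F2 (sgi i p) : ℂ) * omC p j k := by
      funext p
      rw [hm]
      rfl
    rw [e]
    exact ((cd_ofReal (h1.comp_contDiffOn (cd_sgi i))).mul (cd_thi i j k)).add
      ((cd_ofReal (h2.comp_contDiffOn (cd_sgi i))).mul (cd_omC j k))
  herm := by
    intro i p _
    rw [hm]
    exact herm_comb i p _ _
  pos := by
    intro i p hp v hv
    rw [hm]
    obtain ⟨a1, a2⟩ := SX_mem (z := p 0) hp (ins_ne i p)
    rw [← sgi_eq] at a1 a2
    exact comb_pos i hp (h3 _ a1 a2) (h4 _ a1 a2) hv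
  compat := by
    intro g hg i j p hp h v
    rw [hm, hm, sgi_FF hp h]
    have e : ∀ (A B : M3) (a b : ℂ) (v : Cn 3), hf (a • A + b • B) v = a * hf A v + b * hf B v := by
      intro A B a b v
      rw [hf_add_left]
      unfold hf
      simp only [Matrix.smul_apply, smul_eq_mul, Finset.mul_sum]
      congr 1 <;> refine Finset.sum_congr rfl fun j _ => Finset.sum_congr rfl fun k _ => ?_ <;> ring
    rw [e, e, compat_thi hp h, compat_omC hp h]

theorem isMet_mg0 : IsMet mg0 := by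
  refine isMet_comb (F1 := fun _ => 1) (F2 := fun _ => 1 / 2) (fun i p => mg0_eq i p)
    contDiff_const contDiff_const (fun x _ _ => one_pos) fun x hx _ => ?_
  show 0 < (1 : ℝ) * (x / 2) + 1 / 2
  linarith

theorem contDiff_f1 : ContDiff ℝ ∞ f1 := by
  unfold f1
  fun_prop

theorem contDiff_f2 : ContDiff ℝ ∞ f2 := by
  unfold f2
  refine ContDiff.div (by fun_prop) (by fun_prop) fun x => ?_
  positivity

theorem isMet_mG : IsMet mG := by
  refine isMet_comb (fun i p => mG_eq i p) contDiff_f1 contDiff_f2 (fun x _ _ => ?_) fun x hx _ => ?_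
  · unfold f1
    positivity
  · have hq : 0 < 1 + 15 * x ^ 2 := by positivity
    unfold f1 f2
    have e : (1 + 15 * x ^ 2) * (x / 2) + (1 - 10 * x ^ 3 - 90 * x ^ 5) / (1 + 15 * x ^ 2) =
        (1 + x / 2 + 5 * x ^ 3 + 45 / 2 * x ^ 5) / (1 + 15 * x ^ 2) := by
      field_simp
      ring
    rw [e]
    positivity

end Pool.Agent.TH598.KG
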