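import Pool.Agent.TH598.KG.Chart
import Pool.Agent.TH152.J120a
import Pool.Agent.TH609.J118

/-!
# The metrics in the charts number 1, 2: closedness and the balanced condition
-/

set_option autoImplicit false

open scoped Manifold ContDiff Topology ComplexConjugate MatrixGroups UpperHalfPlane Matrix
open MeasureTheory Set Filter

namespace Pool.Agent.TH598.KG

open Pool.Agent.W549.CY (Cn dz dzbar HermitianMetric chernRicci chernScalar)
open Pool.Agent.W711.KC (jj nn CG CG_far jj_ne im_mob det_eq)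
open Complex (normSq)

/-- `f` is differentiable at `p` with `∂f/∂z_j = d`. -/
structure HD (j : Fin 3) (f : Cn 3 → ℂ) (p : Cn 3) (d : ℂ) : Prop where
  diff : DifferentiableAt ℝ f p
  eq : dz j f p = d

namespace HD

variable {j : Fin 3} {f g : Cn 3 → ℂ} {p : Cn 3} {a b : ℂ}

theorem of_eq (h : HD j f p a) (e : a = b) : HD j f p b := e ▸ h

theorem congr (h : HD j f p a) (e : f =ᶠ[𝓝 p] g) : HD j g p a :=
  ⟨h.diff.congr_of_eventuallyEq e.symm, by rw [← h.eq]; exact (dz_congr' e).symm⟩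

theorem const (c : ℂ) : HD j (fun _ => c) p 0 := ⟨differentiableAt_const _, dz_const j c p⟩

theorem add (hf : HD j f p a) (hg : HD j g p b) : HD j (fun q => f q + g q) p (a + b) := by
  refine ⟨hf.diff.add hg.diff, ?_⟩
  rw [← hf.eq, ← hg.eq]
  unfold dz
  rw [fderiv_fun_add hf.diff hg.diff]
  simp only [add_apply]
  ring

theorem neg (hf : HD j f p a) : HD j (fun q => -f q) p (-a) := by
  refine ⟨hf.diff.neg, ?_⟩
  rw [← hf.eq]
  unfold dz
  rw [fderiv_fun_neg]
  simp only [neg_apply]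
  ring

theorem sub (hf : HD j f p a) (hg : HD j g p b) : HD j (fun q => f q - g q) p (a - b) := by
  have := hf.add hg.neg
  simpa only [sub_eq_add_neg] using this

theorem mul (hf : HD j f p a) (hg : HD j g p b) :
    HD j (fun q => f q * g q) p (a * g p + f p * b) := by
  refine ⟨hf.diff.mul hg.diff, ?_⟩
  rw [← hf.eq, ← hg.eq]
  unfold dz
  rw [fderiv_fun_mul hf.diff hg.diff]
  simp only [add_apply, smul_apply, smul_eq_mul]
  ring

theorem inv (hf : HD j f p a) (h : f p ≠ 0) : HD j (fun q => (f q)⁻¹) p (-(a / f p ^ 2)) := by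
  have h1 := (hasFDerivAt_inv' (𝕜 := ℝ) h).comp p hf.diff.hasFDerivAt
  refine ⟨h1.differentiableAt, ?_⟩
  rw [← hf.eq]
  unfold dz
  rw [show (fun q => (f q)⁻¹) = (fun x : ℂ => x⁻¹) ∘ f from rfl, h1.fderiv]
  simp only [ContinuousLinearMap.comp_apply, neg_apply, ContinuousLinearMap.mulLeftRight_apply]
  field_simp
  ring

theorem div (hf : HD j f p a) (hg : HD j g p b) (h : g p ≠ 0) :
    HD j (fun q => f q / g q) p ((a * g p - f p * b) / g p ^ 2) := by
  have := hf.mul (hg.inv h)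
  simp only [← div_eq_mul_inv] at this
  refine this.of_eq ?_
  field_simp
  ring

theorem pow (hf : HD j f p a) : HD j (fun q => f q ^ 2) p (2 * f p * a) := by
  have := hf.mul hf
  simp only [← pow_two] at this
  refine this.of_eq ?_
  ring

theorem coord (k : Fin 3) : HD j (fun q => q k) p (if k = j then 1 else 0) := by
  have h1 : HasFDerivAt (𝕜 := ℝ) (fun q : Cn 3 => q k)
      (ContinuousLinearMap.proj (R := ℝ) (φ := fun _ : Fin 3 => ℂ) k) p :=
    (ContinuousLinearMap.proj (R := ℝ) (φ := fun _ : Fin 3 => ℂ) k).hasFDerivAt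
  refine ⟨h1.differentiableAt, ?_⟩
  unfold dz
  rw [h1.fderiv]
  show (1 / 2) * ((Pi.single j (1 : ℂ) : Cn 3) k - Complex.I * (Pi.single j Complex.I : Cn 3) k) = _
  by_cases h : k = j
  · subst h
    simp
    norm_num
  · simp [h]

theorem conjc (k : Fin 3) : HD j (fun q => conj (q k)) p 0 := by
  refine ⟨?_, ?_⟩
  · exact (Complex.conjCLE.differentiable.comp
      (ContinuousLinearMap.proj (R := ℝ) (φ := fun _ : Fin 3 => ℂ) k).differentiable) p
  · have h1 : HasFDerivAt (𝕜 := ℝ) (fun q : Cn 3 => q k)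
      (ContinuousLinearMap.proj (R := ℝ) (φ := fun _ : Fin 3 => ℂ) k) p :=
      (ContinuousLinearMap.proj (R := ℝ) (φ := fun _ : Fin 3 => ℂ) k).hasFDerivAt
    rw [dz_conj]
    unfold dzbar
    rw [h1.fderiv]
    show conj ((1 / 2) * ((Pi.single j (1 : ℂ) : Cn 3) k +
      Complex.I * (Pi.single j Complex.I : Cn 3) k)) = _
    by_cases h : k = j
    · subst h
      simp
    · simp [h]

theorem im0 : HD j (fun q => ((q 0).im : ℂ)) p (if j = 0 then -(Complex.I / 2) else 0) := by
  have h1 : (fun q : Cn 3 => ((q 0).im : ℂ)) = fun q =>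
      (-(Complex.I / 2)) * (q 0 - conj (q 0)) := by
    funext q
    rw [Complex.sub_conj]
    push_cast
    linear_combination (((q 0).im : ℂ)) * Complex.I_sq
  rw [h1]
  refine ((const _).mul ((coord 0).sub (conjc 0))).of_eq ?_
  by_cases h : j = 0
  · subst h
    simp
  · have h' : ¬ (0 : Fin 3) = j := fun e => h e.symm
    simp [h, h']

end HD

theorem N1c (p : Cn 3) : (N1 p : ℂ) = ((p 0).im : ℂ) * (p 1 * conj (p 1)) + 1 + p 2 * conj (p 2) := by
  unfold N1
  push_cast
  rw [normSq_coe, normSq_coe]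

theorem Nnc (p : Cn 3) : (Nn p : ℂ) = ((p 0).im : ℂ) + (p 1 * conj (p 1) + p 2 * conj (p 2)) := by
  unfold Nn nsq
  push_cast
  rw [normSq_coe, normSq_coe]

theorem HD_N1 (j : Fin 3) (p : Cn 3) : HD j (fun q => (N1 q : ℂ)) p
    (![-(Complex.I / 2) * (p 1 * conj (p 1)), ((p 0).im : ℂ) * conj (p 1), conj (p 2)] j) := by
  simp only [N1c]
  refine (((HD.im0.mul ((HD.coord 1).mul (HD.conjc 1))).add (HD.const 1)).add
    ((HD.coord 2).mul (HD.conjc 2))).of_eq ?_
  fin_cases j <;> simp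

theorem HD_Nn (j : Fin 3) (p : Cn 3) : HD j (fun q => (Nn q : ℂ)) p
    (![-(Complex.I / 2), conj (p 1), conj (p 2)] j) := by
  simp only [Nnc]
  refine (HD.im0.add (((HD.coord 1).mul (HD.conjc 1)).add
    ((HD.coord 2).mul (HD.conjc 2)))).of_eq ?_
  fin_cases j <;> simp

theorem i01 : ((0 : Fin 3) = 1) = False := by decide
theorem i02 : ((0 : Fin 3) = 2) = False := by decide
theorem i10 : ((1 : Fin 3) = 0) = False := by decide
theorem i12 : ((1 : Fin 3) = 2) = False := by decide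
theorem i20 : ((2 : Fin 3) = 0) = False := by decide
theorem i21 : ((2 : Fin 3) = 1) = False := by decide
theorem v0 (a b c : ℂ) : (![a, b, c] : Fin 3 → ℂ) 0 = a := rfl
theorem v1 (a b c : ℂ) : (![a, b, c] : Fin 3 → ℂ) 1 = b := rfl
theorem v2 (a b c : ℂ) : (![a, b, c] : Fin 3 → ℂ) 2 = c := rfl

/-- The derivative of the entries of `Th1`. -/
theorem closed_Th1 : Closed Th1 := by
  intro p hp i j k
  have hy : ((p 0).im : ℂ) ≠ 0 := ofReal_ne hp
  have hn : (N1 p : ℂ) ≠ 0 := ofReal_ne (N1_pos hp)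
  have hn2 : (N1 p : ℂ) ^ 2 ≠ 0 := pow_ne_zero 2 hn
  have hn4 : 4 * (N1 p : ℂ) ^ 2 ≠ 0 := mul_ne_zero (by norm_num) hn2
  have hy4 : 4 * ((p 0).im : ℂ) ^ 2 ≠ 0 := mul_ne_zero (by norm_num) (pow_ne_zero 2 hy)
  have N := fun i => HD_N1 i p
  have e00 := fun i => (HD.div (((HD.coord (j := i) (p := p) 1).mul (HD.conjc 1)).pow)
    ((HD.const 4).mul (N i).pow) hn4).neg.add (HD.div (HD.const 1) ((HD.const 4).mul HD.im0.pow) hy4)
  have e01 := fun i => (HD.div (((HD.const (Complex.I / 2)).mul (HD.coord (j := i) (p := p) 1)).mul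
    ((HD.const 1).add ((HD.coord 2).mul (HD.conjc 2)))) (N i).pow hn2).neg
  have e02 := fun i => HD.div (((HD.const (Complex.I / 2)).mul ((HD.coord (j := i) (p := p) 1).mul
    (HD.conjc 1))).mul (HD.coord 2)) (N i).pow hn2
  have e10 := fun i => HD.div (((HD.const (Complex.I / 2)).mul (HD.conjc (j := i) (p := p) 1)).mul
    ((HD.const 1).add ((HD.coord 2).mul (HD.conjc 2)))) (N i).pow hn2
  have e11 := fun i => HD.div (HD.im0.mul ((HD.const (j := i) (p := p) 1).add
    ((HD.coord 2).mul (HD.conjc 2)))) (N i).pow hn2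
  have e12 := fun i => (HD.div ((HD.im0.mul (HD.conjc (j := i) (p := p) 1)).mul (HD.coord 2))
    (N i).pow hn2).neg
  have e20 := fun i => (HD.div (((HD.const (Complex.I / 2)).mul ((HD.coord (j := i) (p := p) 1).mul
    (HD.conjc 1))).mul (HD.conjc 2)) (N i).pow hn2).neg
  have e21 := fun i => (HD.div ((HD.im0.mul (HD.coord (j := i) (p := p) 1)).mul (HD.conjc 2))
    (N i).pow hn2).neg
  have e22 := fun i => HD.div ((HD.im0.mul ((HD.coord (j := i) (p := p) 1).mul
    (HD.conjc 1))).add (HD.const 1)) (N i).pow hn2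
  have k1 : ∀ k, dz 0 (fun q => Th1 q 1 k) p = dz 1 (fun q => Th1 q 0 k) p := by
    intro k
    fin_cases k
    · refine (e10 0).eq.trans (Eq.trans ?_ (e00 1).eq.symm)
      simp only [i01, i02, i10, i12, i20, i21, v0, v1, v2, if_true, if_false,
        mul_zero, zero_mul, add_zero, zero_add, mul_one, one_mul, sub_zero, zero_sub]
      clear e00 e01 e02 e10 e11 e12 e20 e21 e22 N
      field_simp
      rw [N1c]
      ring_nf
      try simp only [Complex.I_sq]
      try ring
    · refine (e11 0).eq.trans (Eq.trans ?_ (e01 1).eq.symm)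
      simp only [i01, i02, i10, i12, i20, i21, v0, v1, v2, if_true, if_false,
        mul_zero, zero_mul, add_zero, zero_add, mul_one, one_mul, sub_zero, zero_sub]
      clear e00 e01 e02 e10 e11 e12 e20 e21 e22 N
      field_simp
      rw [N1c]
      ring_nf
      try simp only [Complex.I_sq]
      try ring
    · refine (e12 0).eq.trans (Eq.trans ?_ (e02 1).eq.symm)
      simp only [i01, i02, i10, i12, i20, i21, v0, v1, v2, if_true, if_false,
        mul_zero, zero_mul, add_zero, zero_add, mul_one, one_mul, sub_zero, zero_sub]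
      clear e00 e01 e02 e10 e11 e12 e20 e21 e22 N
      field_simp
      rw [N1c]
      ring_nf
      try simp only [Complex.I_sq]
      try ring
  have k2 : ∀ k, dz 0 (fun q => Th1 q 2 k) p = dz 2 (fun q => Th1 q 0 k) p := by
    intro k
    fin_cases k
    · refine (e20 0).eq.trans (Eq.trans ?_ (e00 2).eq.symm)
      simp only [i01, i02, i10, i12, i20, i21, v0, v1, v2, if_true, if_false,
        mul_zero, zero_mul, add_zero, zero_add, mul_one, one_mul, sub_zero, zero_sub]
      clear e00 e01 e02 e10 e11 e12 e20 e21 e22 N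
      field_simp
      rw [N1c]
      ring_nf
      try simp only [Complex.I_sq]
      try ring
    · refine (e21 0).eq.trans (Eq.trans ?_ (e01 2).eq.symm)
      simp only [i01, i02, i10, i12, i20, i21, v0, v1, v2, if_true, if_false,
        mul_zero, zero_mul, add_zero, zero_add, mul_one, one_mul, sub_zero, zero_sub]
      clear e00 e01 e02 e10 e11 e12 e20 e21 e22 N
      field_simp
      rw [N1c]
      ring_nf
      try simp only [Complex.I_sq]
      try ring
    · refine (e22 0).eq.trans (Eq.trans ?_ (e02 2).eq.symm)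
      simp only [i01, i02, i10, i12, i20, i21, v0, v1, v2, if_true, if_false,
        mul_zero, zero_mul, add_zero, zero_add, mul_one, one_mul, sub_zero, zero_sub]
      clear e00 e01 e02 e10 e11 e12 e20 e21 e22 N
      field_simp
      rw [N1c]
      ring_nf
      try simp only [Complex.I_sq]
      try ring
  have k3 : ∀ k, dz 1 (fun q => Th1 q 2 k) p = dz 2 (fun q => Th1 q 1 k) p := by
    intro k
    fin_cases k
    · refine (e20 1).eq.trans (Eq.trans ?_ (e10 2).eq.symm)
      simp only [i01, i02, i10, i12, i20, i21, v0, v1, v2, if_true, if_false,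
        mul_zero, zero_mul, add_zero, zero_add, mul_one, one_mul, sub_zero, zero_sub]
      clear e00 e01 e02 e10 e11 e12 e20 e21 e22 N
      field_simp
      rw [N1c]
      ring_nf
      try simp only [Complex.I_sq]
      try ring
    · refine (e21 1).eq.trans (Eq.trans ?_ (e11 2).eq.symm)
      simp only [i01, i02, i10, i12, i20, i21, v0, v1, v2, if_true, if_false,
        mul_zero, zero_mul, add_zero, zero_add, mul_one, one_mul, sub_zero, zero_sub]
      clear e00 e01 e02 e10 e11 e12 e20 e21 e22 N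
      field_simp
      rw [N1c]
      ring_nf
      try simp only [Complex.I_sq]
      try ring
    · refine (e22 1).eq.trans (Eq.trans ?_ (e12 2).eq.symm)
      simp only [i01, i02, i10, i12, i20, i21, v0, v1, v2, if_true, if_false,
        mul_zero, zero_mul, add_zero, zero_add, mul_one, one_mul, sub_zero, zero_sub]
      clear e00 e01 e02 e10 e11 e12 e20 e21 e22 N
      field_simp
      rw [N1c]
      ring_nf
      try simp only [Complex.I_sq]
      try ring
  fin_cases i <;> fin_cases j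
  · rfl
  · exact k1 k
  · exact k2 k
  · exact (k1 k).symm
  · rfl
  · exact k3 k
  · exact (k2 k).symm
  · exact (k3 k).symm
  · rfl

theorem HD.real_comp {j : Fin 3} {F : ℝ → ℝ} {s : Cn 3 → ℝ} {p : Cn 3} {F' : ℝ} {d : ℂ}
    (hF : HasDerivAt F F' (s p)) (hs' : DifferentiableAt ℝ s p) (hs : HD j (fun q => (s q : ℂ)) p d) :
    HD j (fun q => (F (s q) : ℂ)) p ((F' : ℂ) * d) := by
  have h1 : HasFDerivAt (fun q => (s q : ℂ)) (Complex.ofRealCLM.comp (fderiv ℝ s p)) p :=
    Complex.ofRealCLM.hasFDerivAt.comp p hs'.hasFDerivAt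
  have h2 : HasFDerivAt (fun q => F (s q)) (F' • fderiv ℝ s p) p :=
    hF.comp_hasFDerivAt p hs'.hasFDerivAt
  have h3 : HasFDerivAt (fun q => (F (s q) : ℂ)) (Complex.ofRealCLM.comp (F' • fderiv ℝ s p)) p :=
    Complex.ofRealCLM.hasFDerivAt.comp p h2
  refine ⟨h3.differentiableAt, ?_⟩
  rw [← hs.eq]
  unfold dz
  rw [h3.fderiv, h1.fderiv]
  simp only [ContinuousLinearMap.comp_apply, smul_apply, smul_eq_mul, Complex.ofRealCLM_apply]
  push_cast
  ring

theorem sig1c (p : Cn 3) : (sig1 p : ℂ) = (1 + p 2 * conj (p 2)) / (N1 p : ℂ) := by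
  unfold sig1
  push_cast
  rw [normSq_coe]

theorem HD_sig1 (j : Fin 3) {p : Cn 3} (hp : p ∈ UU) : HD j (fun q => (sig1 q : ℂ)) p
    (![Complex.I / 2 * (p 1 * conj (p 1)) * (1 + p 2 * conj (p 2)) / (N1 p : ℂ) ^ 2,
      -(((p 0).im : ℂ) * conj (p 1) * (1 + p 2 * conj (p 2)) / (N1 p : ℂ) ^ 2),
      ((p 0).im : ℂ) * (p 1 * conj (p 1)) * conj (p 2) / (N1 p : ℂ) ^ 2] j) := by
  have hn : (N1 p : ℂ) ≠ 0 := ofReal_ne (N1_pos hp)
  simp only [sig1c]
  refine (HD.div ((HD.const (j := j) (p := p) 1).add ((HD.coord 2).mul (HD.conjc 2)))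
    (HD_N1 j p) hn).of_eq ?_
  fin_cases j
  · simp only [Fin.zero_eta, Fin.isValue]
    simp only [i01, i02, i10, i12, i20, i21, v0, v1, v2, if_true, if_false,
        mul_zero, zero_mul, add_zero, zero_add, mul_one, one_mul, sub_zero, zero_sub]
    field_simp
  · simp only [Fin.isValue, Fin.mk_one]
    simp only [i01, i02, i10, i12, i20, i21, v0, v1, v2, if_true, if_false,
        mul_zero, zero_mul, add_zero, zero_add, mul_one, one_mul, sub_zero, zero_sub]
    field_simp
  · simp only [Fin.isValue, Fin.reduceFinMk]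
    simp only [i01, i02, i10, i12, i20, i21, v0, v1, v2, if_true, if_false,
        mul_zero, zero_mul, add_zero, zero_add, mul_one, one_mul, sub_zero, zero_sub]
    rw [N1c]
    field_simp
    ring

theorem differentiableAt_sig1 {p : Cn 3} (hp : p ∈ UU) : DifferentiableAt ℝ sig1 p :=
  ((cd_sgi 1).contDiffAt (isOpen_UU.mem_nhds hp)).differentiableAt (by simp)

theorem padj_apply (a b : M3) (k j : Fin 3) :
    padj a b k j = (a + b).adjugate k j - a.adjugate k j - b.adjugate k j := rfl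

theorem omC_adj (p : Cn 3) : (omC p).adjugate = 0 := by
  rw [Matrix.adjugate_fin_three]
  ext j k
  fin_cases j <;> fin_cases k <;> simp [omC]

theorem padj_smul_smul (a b : M3) (s t : ℂ) : padj (s • a) (t • b) = (s * t) • padj a b := by
  ext k j
  rw [Matrix.smul_apply, padj_apply, padj_apply]
  simp only [Matrix.adjugate_fin_three]
  fin_cases k <;> fin_cases j <;> simp <;> ring

theorem adj_comb (a b : M3) (hb : b.adjugate = 0) (s t : ℂ) (k j : Fin 3) :
    (s • a + t • b).adjugate k j = s ^ 2 / 2 * padj a a k j + s * t * padj a b k j := by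
  have h1 := congrFun (congrFun (padj_smul_smul a b s t) k) j
  rw [padj_apply, Matrix.adjugate_smul t b, hb, smul_zero, Matrix.smul_apply, smul_eq_mul,
    Matrix.adjugate_smul s a, Matrix.smul_apply, smul_eq_mul] at h1
  have h2 : padj a a k j = 2 * a.adjugate k j := by
    rw [padj_apply, ← two_smul ℂ a, Matrix.adjugate_smul, Matrix.smul_apply, smul_eq_mul]
    simp only [Fintype.card_fin]
    ring
  rw [h2]
  simp only [Fintype.card_fin, Nat.add_one_sub_one, Matrix.zero_apply, sub_zero] at h1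
  linear_combination h1

/-- the algebraic identity behind the balanced condition. -/
theorem bal_id {p : Cn 3} (hp : p ∈ UU) (k : Fin 3) :
    ∑ j, (![Complex.I / 2 * (p 1 * conj (p 1)) * (1 + p 2 * conj (p 2)) / (N1 p : ℂ) ^ 2,
      -(((p 0).im : ℂ) * conj (p 1) * (1 + p 2 * conj (p 2)) / (N1 p : ℂ) ^ 2),
      ((p 0).im : ℂ) * (p 1 * conj (p 1)) * conj (p 2) / (N1 p : ℂ) ^ 2] : Fin 3 → ℂ) j *
      (padj (Th1 p) (Th1 p) k j - (sig1 p : ℂ) * padj (Th1 p) (omC p) k j) = 0 := by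
  have hy : ((p 0).im : ℂ) ≠ 0 := ofReal_ne hp
  have hn : (N1 p : ℂ) ≠ 0 := ofReal_ne (N1_pos hp)
  rw [Fin.sum_univ_three, v0, v1, v2, sig1c]
  simp only [padj_apply, Matrix.adjugate_fin_three]
  fin_cases k
  · simp [Th1, omC]
    field_simp
    rw [N1c]
    ring_nf
    try simp only [Complex.I_sq]
    try ring
  · simp [Th1, omC]
    field_simp
    rw [N1c]
    ring_nf
    try simp only [Complex.I_sq]
    try ring
  · simp [Th1, omC]
    field_simp
    rw [N1c]
    ring_nf
    try simp only [Complex.I_sq]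
    try ring

theorem f1f2 (x : ℝ) : f1 x * f2 x = 1 - 10 * x ^ 3 - 90 * x ^ 5 := by
  have hq : 0 < 1 + 15 * x ^ 2 := by positivity
  unfold f1 f2
  field_simp

theorem hasDerivAt_f1sq (x : ℝ) : HasDerivAt (fun x => f1 x ^ 2 / 2) (30 * x + 450 * x ^ 3) x := by
  have h : (fun x => f1 x ^ 2 / 2) = fun x : ℝ => 1 / 2 + 15 * x ^ 2 + 225 / 2 * x ^ 4 := by
    funext x
    unfold f1
    ring
  rw [h]
  have h1 := ((hasDerivAt_const x (1 / 2 : ℝ)).add ((hasDerivAt_pow 2 x).const_mul 15)).add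
    ((hasDerivAt_pow 4 x).const_mul (225 / 2))
  refine h1.congr_deriv ?_
  norm_num
  ring

theorem hasDerivAt_f1f2 (x : ℝ) : HasDerivAt (fun x => f1 x * f2 x) (-(30 * x ^ 2 + 450 * x ^ 4)) x := by
  have h : (fun x => f1 x * f2 x) = fun x : ℝ => 1 - 10 * x ^ 3 - 90 * x ^ 5 := funext f1f2
  rw [h]
  have h1 := ((hasDerivAt_const x (1 : ℝ)).sub ((hasDerivAt_pow 3 x).const_mul 10)).sub
    ((hasDerivAt_pow 5 x).const_mul 90)
  refine h1.congr_deriv ?_
  norm_num
  ring

theorem cd_padj {a b : Cn 3 → M3} (ha : ∀ j k, ContDiffOn ℝ ∞ (fun p => a p j k) UU)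
    (hb : ∀ j k, ContDiffOn ℝ ∞ (fun p => b p j k) UU) (k j : Fin 3) :
    ContDiffOn ℝ ∞ (fun p => padj (a p) (b p) k j) UU := by
  simp only [padj_apply]
  have hab : ∀ j k, ContDiffOn ℝ ∞ (fun p => (a p + b p) j k) UU := fun j k =>
    (ha j k).add (hb j k)
  exact ((contDiffOn_adjugate hab k j).sub (contDiffOn_adjugate ha k j)).sub
    (contDiffOn_adjugate hb k j)

theorem HD_of_cd {f : Cn 3 → ℂ} (hf : ContDiffOn ℝ ∞ f UU) {p : Cn 3} (hp : p ∈ UU) (j : Fin 3) :
    HD j f p (dz j f p) :=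
  ⟨(hf.contDiffAt (isOpen_UU.mem_nhds hp)).differentiableAt (by simp), rfl⟩

theorem balanced_one {p : Cn 3} (hp : p ∈ UU) (k : Fin 3) :
    ∑ j, dz j (fun q => (mG 1 q).adjugate k j) p = 0 := by
  have e0 : ∀ j, (fun q => (mG 1 q).adjugate k j) = fun q =>
      ((f1 (sig1 q) ^ 2 / 2 : ℝ) : ℂ) * padj (Th1 q) (Th1 q) k j +
        ((f1 (sig1 q) * f2 (sig1 q) : ℝ) : ℂ) * padj (Th1 q) (omC q) k j := by
    intro j
    funext q
    show ((f1 (sig1 q) : ℂ) • Th1 q + (f2 (sig1 q) : ℂ) • omC q).adjugate k j = _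
    rw [adj_comb _ _ (omC_adj q)]
    push_cast
    rfl
  set d : Fin 3 → ℂ := ![Complex.I / 2 * (p 1 * conj (p 1)) * (1 + p 2 * conj (p 2)) / (N1 p : ℂ) ^ 2,
      -(((p 0).im : ℂ) * conj (p 1) * (1 + p 2 * conj (p 2)) / (N1 p : ℂ) ^ 2),
      ((p 0).im : ℂ) * (p 1 * conj (p 1)) * conj (p 2) / (N1 p : ℂ) ^ 2] with hd
  have hs : ∀ j, HD j (fun q => (sig1 q : ℂ)) p (d j) := fun j => HD_sig1 j hp
  have hA : ∀ j, HD j (fun q => ((f1 (sig1 q) ^ 2 / 2 : ℝ) : ℂ)) p _ := fun j =>
    HD.real_comp (F := fun x => f1 x ^ 2 / 2) (hasDerivAt_f1sq _) (differentiableAt_sig1 hp) (hs j)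
  have hB : ∀ j, HD j (fun q => ((f1 (sig1 q) * f2 (sig1 q) : ℝ) : ℂ)) p _ := fun j =>
    HD.real_comp (F := fun x => f1 x * f2 x) (hasDerivAt_f1f2 _) (differentiableAt_sig1 hp) (hs j)
  have hP : ∀ j, HD j (fun q => padj (Th1 q) (Th1 q) k j) p _ := fun j =>
    HD_of_cd (cd_padj cd_Th1 cd_Th1 k j) hp j
  have hR : ∀ j, HD j (fun q => padj (Th1 q) (omC q) k j) p _ := fun j =>
    HD_of_cd (cd_padj cd_Th1 cd_omC k j) hp j
  have key : ∀ j, dz j (fun q => (mG 1 q).adjugate k j) p =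
      (((30 * sig1 p + 450 * sig1 p ^ 3 : ℝ) : ℂ) * d j * padj (Th1 p) (Th1 p) k j +
        ((f1 (sig1 p) ^ 2 / 2 : ℝ) : ℂ) * dz j (fun q => padj (Th1 q) (Th1 q) k j) p) +
      (((-(30 * sig1 p ^ 2 + 450 * sig1 p ^ 4) : ℝ) : ℂ) * d j * padj (Th1 p) (omC p) k j +
        ((f1 (sig1 p) * f2 (sig1 p) : ℝ) : ℂ) * dz j (fun q => padj (Th1 q) (omC q) k j) p) :=
    fun j => by
      rw [e0 j]
      exact (((hA j).mul (hP j)).add ((hB j).mul (hR j))).eq
  simp only [key]
  have c1 : ∀ j k, ContDiffOn ℝ 1 (fun p => Th1 p j k) UU := fun j k => (cd_Th1 j k).of_le (by simp)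
  have c2 : ∀ j k, ContDiffOn ℝ 1 (fun p => omC p j k) UU := fun j k => (cd_omC j k).of_le (by simp)
  have z1 := Pool.Agent.TH152.KG.padj_div_free c1 c1 closed_Th1 closed_Th1 hp k
  have z2 := Pool.Agent.TH152.KG.padj_div_free c1 c2 closed_Th1 closed_omC hp k
  have z3 := bal_id hp k
  rw [← hd] at z3
  rw [Fin.sum_univ_three] at z1 z2 z3 ⊢
  push_cast
  linear_combination ((f1 (sig1 p) : ℂ) ^ 2 / 2) * z1 + ((f1 (sig1 p) : ℂ) * (f2 (sig1 p) : ℂ)) * z2 +
    (30 * (sig1 p : ℂ) + 450 * (sig1 p : ℂ) ^ 3) * z3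

theorem balanced_mG (i : Fin 3) {p : Cn 3} (hp : p ∈ UU) (k : Fin 3) :
    ∑ j, dz j (fun q => (mG i q).adjugate k j) p = 0 := by
  fin_cases i
  · have h1 := balanced_Gm hp k
    have h2 : ∀ q : Cn 3, ∀ j, padj (Gm q) (Gm q) k j = 2 * (mG 0 q).adjugate k j := by
      intro q j
      rw [padj_apply]
      show (Gm q + Gm q).adjugate k j - _ - _ = 2 * (Gm q).adjugate k j
      rw [← two_smul ℂ (Gm q), Matrix.adjugate_smul, Matrix.smul_apply, smul_eq_mul]
      simp only [Fintype.card_fin]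
      ring
    simp only [h2] at h1
    have h3 : ∀ j, dz j (fun q => 2 * (mG 0 q).adjugate k j) p =
        2 * dz j (fun q => (mG 0 q).adjugate k j) p := by
      intro j
      have h4 := (HD.const (j := j) (p := p) 2).mul
        (HD_of_cd (contDiffOn_adjugate (fun a b => isMet_mG.smooth 0 a b) k j) hp j)
      rw [h4.eq]
      ring
    simp only [h3, ← Finset.mul_sum] at h1
    exact (mul_eq_zero.1 h1).resolve_left two_ne_zero
  · exact balanced_one hp k
  · exact balanced_one hp k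

theorem Closed.comb {a b : Cn 3 → M3} (ha : ∀ j k, ContDiffOn ℝ ∞ (fun p => a p j k) UU)
    (hb : ∀ j k, ContDiffOn ℝ ∞ (fun p => b p j k) UU) (ha' : Closed a) (hb' : Closed b) (c : ℂ) :
    Closed (fun p => a p + c • b p) := by
  intro p hp i j k
  have h : ∀ i j k, HD i (fun q => (a q + c • b q) j k) p _ := fun i j k =>
    (HD_of_cd (ha j k) hp i).add ((HD.const c).mul (HD_of_cd (hb j k) hp i))
  rw [(h i j k).eq, (h j i k).eq, ha' p hp i j k, hb' p hp i j k]
  ring

theorem closed_mg0 (i : Fin 3) : Closed (mg0 i) := by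
  fin_cases i
  · exact Closed.comb cd_Th cd_omC closed_Th closed_omC (1 / 2)
  · exact Closed.comb cd_Th1 cd_omC closed_Th1 closed_omC (1 / 2)
  · exact Closed.comb cd_Th1 cd_omC closed_Th1 closed_omC (1 / 2)

end Pool.Agent.TH598.KG
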