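import Pool.Agent.TH598.KG.Chart2
import Pool.Agent.TH152.J120i
import Pool.Agent.TH195.J121e
import Pool.Agent.TH55.J122
import Pool.Agent.TH649.J257
import Pool.Agent.TH997.J116
import Pool.Agent.TH997.J258
import Pool.Agent.TH997.J259
import Pool.Agent.TH997.J262

/-!
# Total scalar curvature of the metrics on the quotient
-/

set_option autoImplicit false

open scoped Manifold ContDiff Topology ComplexConjugate MatrixGroups UpperHalfPlane Matrix
open MeasureTheory Set Filter

namespace Pool.Agent.TH598.KG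

open Pool.Agent.W549.CY (Cn dz dzbar HermitianMetric chernRicci chernScalar)
open Pool.Agent.W711.KC (jj nn CG CG_far)
open Pool.Agent.TH997.KG (exists_cutoff base_stokes stokes3)
open Pool.Agent.TH343.J117 (DD_bound_rankOne)
open Pool.Agent.TH649 (exact_bound ricci_exact)
open Pool.Agent.TH997.CMan (metric_compare dlog_bound chernScalar_chart continuous_scal chernScalar_bdd)
open Pool.Agent.TH997.KGO (isVolume_map)

theorem FF_zero_zero (g : SL(2, ℝ)) : FF g 0 0 = Fa g := by
  funext p k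
  fin_cases k
  · rfl
  · show p 1 / (jj g (p 0) * 1) = p 1 / jj g (p 0)
    rw [mul_one]
  · show p 2 / (jj g (p 0) * 1) = p 2 / jj g (p 0)
    rw [mul_one]

theorem hom_zero_zero (g : SL(2, ℝ)) {p : Cn 3} (hp : p ∈ UU) : hom g 0 p 0 ≠ 0 := by
  show jj g (p 0) * 1 ≠ 0
  rw [mul_one]
  exact Pool.Agent.W711.KC.jj_ne g hp

theorem IsMet.equi {m : Fin 3 → Cn 3 → M3} (hm : IsMet m) : Equi CG (m 0) := by
  intro g hg p hp v
  rw [← FF_zero_zero]
  exact hm.compat g hg 0 0 p hp (hom_zero_zero g hp) v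

theorem dz_congr {n : ℕ} {j : Fin n} {u w : Cn n → ℂ} {z : Cn n} (h : u =ᶠ[𝓝 z] w) :
    dz j u z = dz j w z := by
  unfold dz
  rw [h.fderiv_eq]

theorem dzbar_congr {n : ℕ} {j : Fin n} {u w : Cn n → ℂ} {z : Cn n} (h : u =ᶠ[𝓝 z] w) :
    dzbar j u z = dzbar j w z := by
  unfold dzbar
  rw [h.fderiv_eq]

theorem chernScalar_congr {n : ℕ} {g g' : Cn n → Matrix (Fin n) (Fin n) ℂ} {z : Cn n}
    (h : g =ᶠ[𝓝 z] g') : chernScalar g z = chernScalar g' z := by
  unfold chernScalar
  rw [h.eq_of_nhds]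
  congr 2
  unfold chernRicci
  ext j k
  simp only [Matrix.of_apply, neg_inj]
  apply dz_congr
  have h2 : (fun w => ((Real.log (g w).det.re : ℝ) : ℂ)) =ᶠ[𝓝 z]
      fun w => ((Real.log (g' w).det.re : ℝ) : ℂ) := by
    filter_upwards [h] with w hw
    rw [hw]
  filter_upwards [h2.eventuallyEq_nhds] with w hw
  exact dzbar_congr hw

open ComplexOrder in
theorem det_re_pos {A : M3} (h : A.PosDef) : 0 < A.det.re := (Complex.pos_iff.1 h.det_pos).1

variable {X : Type} [TopologicalSpace X] [CompactSpace X] [ChartedSpace (Cn 3) X]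
  [IsManifold 𝓘(ℂ, Cn 3) ω X] [MeasurableSpace X] [BorelSpace X] {qq : Fin 3 → Cn 3 → X}

/-- The total Chern scalar curvature of a metric with divergence free adjugate. -/
theorem total_scalar (hQ : IsQ X qq) (hqc : ContinuousOn (qq 0) UU) {φ : ℂ → ℝ}
    (hφ : Cutoff CG φ) (h : HermitianMetric 3 X) {m : Fin 3 → Cn 3 → M3} (hm : IsMet m)
    (hr : Rep qq h m)
    (hdiv : ∀ p ∈ UU, ∀ k, ∑ j, dz j (fun q => padj (m 0 q) (m 0 q) k j) p = 0) :
    (∃ C, Bdd (m 0) C) ∧ HasTotalScalar h (4 * (Phi φ (m 0) (m 0)).re) := by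
  have := CG_far.properlyDiscontinuous one_pos
  have : Countable CG := CG_far.countable one_pos
  obtain ⟨h0, hr0⟩ := exists_metric hQ isMet_mg0
  -- charts
  have hch : ∀ p ∈ UU, ∃ e ∈ atlas (Cn 3) X, p ∈ e.target ∧ (∀ p' ∈ e.target, e.symm p' = qq 0 p') ∧
      (∀ p' ∈ e.target, m 0 p' = h.g e p') ∧ (∀ p' ∈ e.target, g0 p' = h0.g e p') := by
    intro p hp
    obtain ⟨e, he, hpe, heU, hes⟩ := hQ.exists_chart 0 p hp
    exact ⟨e, he, hpe, hes, fun p' hp' => (hr e he 0 heU hes p' hp').symm,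
      fun p' hp' => (hr0 e he 0 heU hes p' hp').symm⟩
  have hpos : ∀ p ∈ UU, ∀ v : Cn 3, 0 ≤ (hf (m 0 p) v).re := by
    intro p hp v
    by_cases hv : v = 0
    · rw [hv]; simp [hf]
    · exact (hm.pos 0 p hp v hv).le
  obtain ⟨C, hC0, hC⟩ := metric_compare h h0
  have hB : Bdd (m 0) C := by
    intro p hp v
    obtain ⟨e, he, hpe, hes, h1, h2⟩ := hch p hp
    rw [abs_of_nonneg (hpos p hp v), h1 p hpe, h2 p hpe]
    exact hC e he p hpe v
  refine ⟨⟨C, hB⟩, ?_⟩
  obtain ⟨CF, hCF0, hCF⟩ := dlog_bound h h0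
  have hF : ∀ p ∈ UU, ∀ v : Cn 3,
      (fderiv ℝ (fun q => Real.log (m 0 q).det.re - Real.log (g0 q).det.re) p v) ^ 2 ≤
        CF * (hf (g0 p) v).re := by
    intro p hp v
    obtain ⟨e, he, hpe, hes, h1, h2⟩ := hch p hp
    have h3 : (fun q => Real.log (m 0 q).det.re - Real.log (g0 q).det.re) =ᶠ[𝓝 p]
        fun q => Real.log (h.g e q).det.re - Real.log (h0.g e q).det.re := by
      filter_upwards [e.open_target.mem_nhds hpe] with q hq
      rw [h1 q hq, h2 q hq]
    rw [h3.fderiv_eq, h2 p hpe]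
    exact hCF e he p hpe v
  have hloc : ∀ p ∈ UU, ∃ e ∈ atlas (Cn 3) X, p ∈ e.target ∧ e.symm p = qq 0 p ∧
      chernScalar (m 0) p = chernScalar (h.g e) p := by
    intro p hp
    obtain ⟨e, he, hpe, hes, h1, h2⟩ := hch p hp
    refine ⟨e, he, hpe, hes p hpe, chernScalar_congr ?_⟩
    filter_upwards [e.open_target.mem_nhds hpe] with q hq using h1 q hq
  obtain ⟨CS, hCS0, hCS⟩ := chernScalar_bdd h
  have hS : ∀ p ∈ UU, ‖chernScalar (m 0) p‖ ≤ CS := by
    intro p hp
    obtain ⟨e, he, hpe, -, h1⟩ := hloc p hp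
    rw [h1]
    exact hCS e he p hpe
  have hBL := fun β hβ heq => base_stokes hφ (β := β) hβ heq
  have hS3 := fun V hV h0 R hR => stokes3 hφ hBL (V := V) hV h0 (R := R) hR
  have hEX := exact_bound hφ hS3 DD_bound_rankOne
  obtain ⟨i1, i2, i3⟩ := ricci_exact hφ hEX (hm.smooth 0) (hm.herm 0) (hm.pos 0) hm.equi hB hdiv hF hS
  -- the measure
  have hV := isVolume_map hQ hqc hφ h hm hr
  set ν : Measure (Cn 3) := (volume.restrict UU).withDensity
      fun p => ENNReal.ofReal (φ (p 0) * (8 * (m 0 p).det.re)) with hν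
  have hmeasU : MeasurableSet UU := isOpen_UU.measurableSet
  have hqm : AEMeasurable (qq 0) (volume.restrict UU) := hqc.aemeasurable hmeasU
  have hqν : AEMeasurable (qq 0) ν := hqm.mono_ac (withDensity_absolutelyContinuous _ _)
  have hsc : Continuous (scal h) := continuous_scal h
  have hscq : ∀ p ∈ UU, scal h (qq 0 p) = (chernScalar (m 0) p).re := by
    intro p hp
    obtain ⟨e, he, hpe, hes, h1⟩ := hloc p hp
    have hx : qq 0 p ∈ e.source := by
      rw [← hes]; exact e.map_target hpe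
    unfold scal
    rw [h1, chernScalar_chart h (chart_mem_atlas (Cn 3) (qq 0 p)) he ⟨mem_chart_source _ _, hx⟩, ← hes,
      e.right_inv hpe]
  -- the density
  have hdet : ∀ p ∈ UU, 0 ≤ (m 0 p).det.re := by
    intro p hp
    obtain ⟨e, he, hpe, hes, h1, h2⟩ := hch p hp
    rw [h1 p hpe]
    exact (det_re_pos (h.posDef e he p hpe)).le
  have hdens0 : ∀ p ∈ UU, 0 ≤ φ (p 0) * (8 * (m 0 p).det.re) := fun p hp =>
    mul_nonneg (hφ.nonneg _) (mul_nonneg (by norm_num) (hdet p hp))
  have hdm : AEMeasurable (fun p => φ (p 0) * (8 * (m 0 p).det.re)) (volume.restrict UU) := by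
    have := i2.aemeasurable.mul_const 8
    refine this.congr (Eventually.of_forall fun p => ?_)
    simp only
    ring
  have key : ∀ p ∈ UU, (ENNReal.ofReal (φ (p 0) * (8 * (m 0 p).det.re))).toReal • scal h (qq 0 p) =
      4 * (φ (p 0) * (2 * (m 0 p).det.re * (chernScalar (m 0) p).re)) := by
    intro p hp
    rw [ENNReal.toReal_ofReal (hdens0 p hp), hscq p hp, smul_eq_mul]
    ring
  refine ⟨_, hV, ?_, ?_⟩
  · rw [integrable_map_measure hsc.measurable.aestronglyMeasurable hqν, hν,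
      integrable_withDensity_iff_integrable_smul₀' hdm.ennreal_ofReal
        (Eventually.of_forall fun p => ENNReal.ofReal_lt_top)]
    have h3 : IntegrableOn (fun p => 8 * (φ (p 0) * ((m 0 p).det.re * (chernScalar (m 0) p).re))) UU :=
      i1.const_mul 8
    refine h3.congr ?_
    filter_upwards [ae_restrict_mem hmeasU] with p hp
    simp only [Function.comp_apply]
    rw [key p hp]
    ring
  · rw [integral_map hqν hsc.measurable.aestronglyMeasurable, hν,
      integral_withDensity_eq_integral_toReal_smul₀ hdm.ennreal_ofReal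
        (Eventually.of_forall fun p => ENNReal.ofReal_lt_top), ← i3, ← integral_const_mul]
    refine integral_congr_ae ?_
    filter_upwards [ae_restrict_mem hmeasU] with p hp
    exact key p hp

end Pool.Agent.TH598.KG
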