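import Pool.Agent.W549.CYDefs

/-!
# Kähler and Gauduchon metrics, total Chern scalar curvature

Definitions for the statement of the result on `MP_38461c_gt`. Hermitian metrics on a complex
manifold `X` of dimension `n`, the Chern-Ricci form and the Chern scalar curvature are those of
`Pool.Agent.W549.CYDefs`.
-/

set_option autoImplicit false

open scoped Manifold ContDiff Topology ComplexConjugate
open MeasureTheory

namespace Pool.Agent.TH598

open Pool.Agent.W549.CY

variable {n : ℕ} {X : Type} [TopologicalSpace X] [ChartedSpace (Cn n) X]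

/-- The Hermitian metric `h` is Kähler: its fundamental form `ω = i ∑ g_{j k̄} dz_j ∧ dz̄_k` is closed,
i.e. `∂g_{j k̄}/∂z_i = ∂g_{i k̄}/∂z_j` in every chart. -/
def IsKahler (h : HermitianMetric n X) : Prop :=
  ∀ e ∈ atlas (Cn n) X, ∀ z ∈ e.target, ∀ i j k : Fin n,
    dz i (fun w => h.g e w j k) z = dz j (fun w => h.g e w i k) z

/-- The Hermitian metric `h` is balanced: `∂(ω^{n-1}) = 0`. In a chart,
`ω^{n-1}/(n-1)! = ∑ C_{j k̄} (i dz_j ∧ dz̄_k)^*`, where `C_{j k̄}` is the cofactor of `g_{j k̄}`, i.e.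
the entry `(k, j)` of the adjugate matrix of `g`, and `(i dz_j ∧ dz̄_k)^*` is the constant form with
`(i dz_a ∧ dz̄_b) ∧ (i dz_j ∧ dz̄_k)^* = δ_{a j} δ_{b k} ∏ i dz_l ∧ dz̄_l`. So the condition is
`∑_j ∂C_{j k̄}/∂z_j = 0` for every `k`. -/
def IsBalanced (h : HermitianMetric n X) : Prop :=
  ∀ e ∈ atlas (Cn n) X, ∀ z ∈ e.target, ∀ k : Fin n,
    ∑ j, dz j (fun w => (h.g e w).adjugate k j) z = 0

/-- The Hermitian metric `h` is Gauduchon: `∂∂̄(ω^{n-1}) = 0`, i.e.
`∑_{j,k} ∂²C_{j k̄}/∂z_j ∂z̄_k = 0` in every chart, where `C_{j k̄} = (adj g)_{k j}` is the cofactor of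
`g_{j k̄}`. -/
def IsGauduchon (h : HermitianMetric n X) : Prop :=
  ∀ e ∈ atlas (Cn n) X, ∀ z ∈ e.target,
    ∑ j, ∑ k, dz j (dzbar k fun w => (h.g e w).adjugate k j) z = 0

/-- The Chern scalar curvature at the point `x` (computed in the preferred chart at `x`). -/
noncomputable def scal (h : HermitianMetric n X) (x : X) : ℝ :=
  (chernScalar (h.g (chartAt (Cn n) x)) (chartAt (Cn n) x x)).re

/-- `μ` is the volume measure `ω^n/n!` of the Hermitian metric `h`: in every chart it is given by the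
density `2^n det g` with respect to the Lebesgue measure of `ℂ^n`
(`ω^n/n! = det g ∏ i dz_j ∧ dz̄_j = 2^n det g ∏ dx_j ∧ dy_j`). -/
def IsVolume [MeasurableSpace X] (h : HermitianMetric n X) (μ : Measure X) : Prop :=
  ∀ e ∈ atlas (Cn n) X, ∀ A : Set X, MeasurableSet A → A ⊆ e.source →
    μ A = ∫⁻ z in e '' A, ENNReal.ofReal (2 ^ n * (h.g e z).det.re)

/-- The total Chern scalar curvature `∫_X s_C ω^n/n!` of `h` exists and equals `T`. -/
def HasTotalScalar [MeasurableSpace X] (h : HermitianMetric n X) (T : ℝ) : Prop :=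
  ∃ μ : Measure X, IsVolume h μ ∧ Integrable (scal h) μ ∧ ∫ x, scal h x ∂μ = T

end Pool.Agent.TH598
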