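import Pool.Agent.TH598.KG.Base
import Pool.Agent.TH598.KG.Stmt

/-!
# The bundle of projective planes: charts and transition maps

A point of `ℍ × ℙ²` is `(z, [x 0 : x 1 : x 2])`; the group acts by
`(z, [x 0 : x 1 : x 2]) ↦ (g z, [(c z + d) x 0 : x 1 : x 2])`. The chart number `i` is
`p ↦ (p 0, [ins i p])`.
-/

set_option autoImplicit false

open scoped Manifold ContDiff Topology ComplexConjugate MatrixGroups UpperHalfPlane Matrix
open MeasureTheory Set Filter

namespace Pool.Agent.TH598.KG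

open Pool.Agent.W549.CY (Cn dz dzbar HermitianMetric chernRicci chernScalar)
open Pool.Agent.W711.KC (jj nn CG)

/-- Homogeneous coordinates in the chart number `i`. -/
noncomputable def ins (i : Fin 3) (p : Cn 3) : Cn 3 :=
  ![![1, p 1, p 2], ![p 1, 1, p 2], ![p 1, p 2, 1]] i

/-- The action on homogeneous coordinates, starting from the chart number `i`. -/
noncomputable def hom (g : SL(2, ℝ)) (i : Fin 3) (p : Cn 3) : Cn 3 :=
  ![jj g (p 0) * ins i p 0, ins i p 1, ins i p 2]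

/-- The affine coordinates in the chart number `j` of the point with homogeneous coordinates `x`. -/
noncomputable def outc (j : Fin 3) (x : Cn 3) : Fin 2 → ℂ :=
  ![x (![1, 0, 0] j) / x j, x (![2, 2, 1] j) / x j]

/-- The action of `g`, from the chart number `i` to the chart number `j`; defined where
`hom g i p j ≠ 0`. -/
noncomputable def FF (g : SL(2, ℝ)) (i j : Fin 3) (p : Cn 3) : Cn 3 :=
  ![nn g (p 0) / jj g (p 0), outc j (hom g i p) 0, outc j (hom g i p) 1]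

/-- `X` is the quotient of `ℍ × ℙ²`; the map `qq i` is the composition of the chart number `i` of
`ℍ × ℙ²` with the projection. -/
structure IsQ (X : Type) [TopologicalSpace X] [ChartedSpace (Cn 3) X] (qq : Fin 3 → Cn 3 → X) :
    Prop where
  atlas_spec : ∀ e ∈ atlas (Cn 3) X, ∃ i, e.target ⊆ UU ∧ ∀ p ∈ e.target, e.symm p = qq i p
  exists_chart : ∀ i, ∀ p ∈ UU, ∃ e ∈ atlas (Cn 3) X, p ∈ e.target ∧ e.target ⊆ UU ∧
    ∀ p' ∈ e.target, e.symm p' = qq i p'
  eq_iff : ∀ i j, ∀ p ∈ UU, ∀ p' ∈ UU, qq i p = qq j p' ↔ ∃ g ∈ CG, hom g i p j ≠ 0 ∧ p' = FF g i j p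

/-- `m i`, `i = 0, 1, 2`, are the matrices in the three charts of a Hermitian metric on the quotient. -/
structure IsMet (m : Fin 3 → Cn 3 → M3) : Prop where
  smooth : ∀ i j k, ContDiffOn ℝ ∞ (fun p => m i p j k) UU
  herm : ∀ i, ∀ p ∈ UU, (m i p).IsHermitian
  pos : ∀ i, ∀ p ∈ UU, ∀ v : Cn 3, v ≠ 0 → 0 < (hf (m i p) v).re
  compat : ∀ g ∈ CG, ∀ i j, ∀ p ∈ UU, hom g i p j ≠ 0 → ∀ v : Cn 3,
    hf (m i p) v = hf (m j (FF g i j p)) (fderiv ℂ (FF g i j) p v)

/-- `m i` is the matrix of the Hermitian metric `h` in the chart number `i`. -/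
def Rep {X : Type} [TopologicalSpace X] [ChartedSpace (Cn 3) X] (qq : Fin 3 → Cn 3 → X)
    (h : HermitianMetric 3 X) (m : Fin 3 → Cn 3 → M3) : Prop :=
  ∀ e ∈ atlas (Cn 3) X, ∀ i, e.target ⊆ UU → (∀ p ∈ e.target, e.symm p = qq i p) →
    ∀ p ∈ e.target, h.g e p = m i p

/-! ### The reference metric and the balanced metric in the charts number 1 and 2 -/

/-- `N` in the charts number `1` and `2`. -/
noncomputable def N1 (p : Cn 3) : ℝ := (p 0).im * Complex.normSq (p 1) + 1 + Complex.normSq (p 2)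

/-- `σ` in the charts number `1` and `2`. -/
noncomputable def sig1 (p : Cn 3) : ℝ := (1 + Complex.normSq (p 2)) / N1 p

/-- `Θ` in the charts number `1` and `2`. -/
noncomputable def Th1 (p : Cn 3) : M3 :=
  !![-((p 1 * conj (p 1)) ^ 2 / (4 * (N1 p : ℂ) ^ 2)) + 1 / (4 * ((p 0).im : ℂ) ^ 2),
      -(Complex.I / 2 * p 1 * (1 + p 2 * conj (p 2)) / (N1 p : ℂ) ^ 2),
      Complex.I / 2 * (p 1 * conj (p 1)) * p 2 / (N1 p : ℂ) ^ 2;
    Complex.I / 2 * conj (p 1) * (1 + p 2 * conj (p 2)) / (N1 p : ℂ) ^ 2,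
      ((p 0).im : ℂ) * (1 + p 2 * conj (p 2)) / (N1 p : ℂ) ^ 2,
      -(((p 0).im : ℂ) * conj (p 1) * p 2 / (N1 p : ℂ) ^ 2);
    -(Complex.I / 2 * (p 1 * conj (p 1)) * conj (p 2) / (N1 p : ℂ) ^ 2),
      -(((p 0).im : ℂ) * p 1 * conj (p 2) / (N1 p : ℂ) ^ 2),
      (((p 0).im : ℂ) * (p 1 * conj (p 1)) + 1) / (N1 p : ℂ) ^ 2]

/-- The reference metric in the three charts. -/
noncomputable def mg0 (i : Fin 3) (p : Cn 3) : M3 :=
  ![g0 p, Th1 p + (1 / 2 : ℂ) • omC p, Th1 p + (1 / 2 : ℂ) • omC p] i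

/-- The balanced metric in the three charts. -/
noncomputable def mG (i : Fin 3) (p : Cn 3) : M3 :=
  ![Gm p, (f1 (sig1 p) : ℂ) • Th1 p + (f2 (sig1 p) : ℂ) • omC p,
    (f1 (sig1 p) : ℂ) • Th1 p + (f2 (sig1 p) : ℂ) • omC p] i

end Pool.Agent.TH598.KG
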