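import Pool.Agent.TH598.KG.Fin

/-!
# The main theorem
-/

set_option autoImplicit false

open scoped Manifold ContDiff Topology ComplexConjugate MatrixGroups UpperHalfPlane Matrix
open MeasureTheory Set Filter

namespace Pool.Agent.TH598.KG

open Pool.Agent.W549.CY (Cn dz dzbar HermitianMetric chernRicci chernScalar)
open Pool.Agent.W711.KC (jj nn CG CG_far)
open Pool.Agent.TH997.KG (exists_cutoff base_stokes stokes3)
open Pool.Agent.TH343.J117 (DD_bound_rankOne)
open Pool.Agent.TH649 (exact_bound ricci_exact)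
open Pool.Agent.TH195.J121 (exists_average)
open Pool.Agent.TH152.KG (phi_rot phi_flow_aux padj_div_free)

/-- the facts on the reference forms used in the invariance of `Phi`. -/
theorem ref_all (Γ : Subgroup SL(2, ℝ)) : Pool.Agent.TH152.KG.Ref Γ where
  g0_pos := fun p hp v hv => g0_pos hp hv
  g0_herm := fun p hp => by
    have h1 := (Th_herm hp)
    have h2 := omC_herm p
    unfold g0
    refine h1.add ?_
    unfold Matrix.IsHermitian at *
    rw [Matrix.conjTranspose_smul, h2]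
    simp
  g0_det := fun p hp => det_g0 hp
  bdd := bdd_rho0
  herm := fun p hp => by
    have h1 := (Th_herm hp)
    have h2 := omC_herm p
    unfold rho0
    unfold Matrix.IsHermitian at *
    rw [Matrix.conjTranspose_sub, Matrix.conjTranspose_smul, Matrix.conjTranspose_smul, h1, h2]
    simp
  c1 := fun j k => by
    have h1 : ContDiffOn ℝ ∞ (fun p => rho0 p j k) UU :=
      (contDiffOn_const.mul (contDiffOn_Th j k)).sub (contDiffOn_const.mul (contDiffOn_omC j k))
    exact h1.of_le (by simp)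
  closed := by
    intro p hp i j k
    have h : ∀ i j k, HD i (fun q => ((3 : ℂ) • Th q - (2 : ℂ) • omC q) j k) p _ := fun i j k =>
      ((HD.const 3).mul (HD_of_cd (contDiffOn_Th j k) hp i)).sub
        ((HD.const 2).mul (HD_of_cd (contDiffOn_omC j k) hp i))
    show dz i (fun q => ((3 : ℂ) • Th q - (2 : ℂ) • omC q) j k) p =
      dz j (fun q => ((3 : ℂ) • Th q - (2 : ℂ) • omC q) i k) p
    rw [(h i j k).eq, (h j i k).eq, closed_Th p hp i j k, closed_omC p hp i j k]
    ring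
  equi := by
    intro g hg p hp v
    have e : ∀ (A B : M3) (v : Cn 3), hf ((3 : ℂ) • A - (2 : ℂ) • B) v = 3 * hf A v - 2 * hf B v := by
      intro A B v
      rw [hf_three, hf_three, hf_three]
      simp only [Matrix.sub_apply, Matrix.smul_apply, smul_eq_mul]
      ring
    unfold rho0
    rw [e, e, equi_Th Γ g hg p hp v, equi_omC Γ g hg p hp v]

/-- `Phi` is positive on positive closed forms. -/
theorem phi_pos {φ : ℂ → ℝ} (hφ : Cutoff CG φ) {a : Cn 3 → M3} {C : ℝ} (ha : IsForm CG a C)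
    (hpos : ∀ p ∈ UU, ∀ v : Cn 3, v ≠ 0 → 0 < (hf (a p) v).re) : 0 < (Phi φ a a).re := by
  have := CG_far.properlyDiscontinuous one_pos
  have : Countable CG := CG_far.countable one_pos
  have hBL := fun β hβ heq => base_stokes hφ (β := β) hβ heq
  have hS3 := fun V hV h0 R hR => stokes3 hφ hBL (V := V) hV h0 (R := R) hR
  have hEX := exact_bound hφ hS3 DD_bound_rankOne
  have hflow := fun (a b : Cn 3 → M3) (Ca Cb : ℝ) (ha : IsForm CG a Ca) (hb : IsForm CG b Cb)
      (W : ℝ → Matrix (Fin 2) (Fin 2) ℂ) (X : Matrix (Fin 2) (Fin 2) ℂ) hW hWX hXW h0 =>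
    phi_flow_aux (ref_all CG) hφ hEX ha hb (W := W) (X := X) hW hWX hXW h0
  have hinv := fun (a b : Cn 3 → M3) (Ca Cb : ℝ) (ha : IsForm CG a Ca) (hb : IsForm CG b Cb)
      (W : Matrix (Fin 2) (Fin 2) ℂ) (hW : W ∈ Matrix.unitaryGroup (Fin 2) ℂ) =>
    phi_rot (φ := φ) hflow ha hb hW
  obtain ⟨a', ha', hrot, hpos', he⟩ := exists_average hφ
    (fun a C ha W hW => Pool.Agent.TH152.KG.IsForm.rot ha hW) hinv ha hpos
  rw [← he]
  exact phi_pos_of_rotInv hφ hBL ha' hrot hpos'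

theorem exists_pos {φ : ℂ → ℝ} (hφ : Cutoff CG φ) : ∃ z : ℂ, 0 < z.im ∧ 0 < φ z := by
  by_contra hcon
  push Not at hcon
  have h1 := hφ.sum UpperHalfPlane.I
  have h2 : ∀ g : CG, φ (((g : SL(2, ℝ)) • UpperHalfPlane.I : ℍ) : ℂ) = 0 := fun g =>
    le_antisymm (hcon _ (UpperHalfPlane.im_pos _)) (hφ.nonneg _)
  simp [h2] at h1

theorem phi_Gm_neg {φ : ℂ → ℝ} (hφ : Cutoff CG φ) : (Phi φ Gm Gm).re < 0 := by
  rw [integral_Gm hφ.smooth.continuous hφ.compact hφ.supp]
  have hc : Continuous fun z : ℂ => φ z / z.im ^ 2 := by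
    rw [continuous_iff_continuousAt]
    intro z
    by_cases hz : z ∈ tsupport φ
    · have : 0 < z.im := hφ.supp hz
      exact hφ.smooth.continuous.continuousAt.div (Complex.continuous_im.continuousAt.pow 2)
        (by positivity)
    · have h1 : (fun z : ℂ => φ z / z.im ^ 2) =ᶠ[𝓝 z] fun _ => 0 := by
        filter_upwards [(isClosed_tsupport φ).isOpen_compl.mem_nhds hz] with w hw
        rw [image_eq_zero_of_notMem_tsupport hw, zero_div]
      exact h1.continuousAt
  have hcs : HasCompactSupport fun z : ℂ => φ z / z.im ^ 2 := by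
    have := hφ.compact.mul_right (f' := fun z : ℂ => (z.im ^ 2)⁻¹)
    exact this
  have hint : Integrable fun z : ℂ => φ z / z.im ^ 2 := hc.integrable_of_hasCompactSupport hcs
  have h0 : ∀ z : ℂ, 0 ≤ φ z / z.im ^ 2 := fun z => div_nonneg (hφ.nonneg z) (sq_nonneg _)
  have h1 : 0 < ∫ z : ℂ, φ z / z.im ^ 2 := by
    rw [integral_pos_iff_support_of_nonneg h0 hint]
    obtain ⟨z, hz, hz'⟩ := exists_pos hφ
    refine (hc.isOpen_support).measure_pos _ ⟨z, ?_⟩
    rw [Function.mem_support]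
    positivity
  have h2 : ∫ z in {z : ℂ | 0 < z.im}, φ z / z.im ^ 2 = ∫ z : ℂ, φ z / z.im ^ 2 := by
    apply setIntegral_eq_integral_of_forall_compl_eq_zero
    intro z hz
    have : z ∉ tsupport φ := fun h => hz (hφ.supp h)
    rw [image_eq_zero_of_notMem_tsupport this, zero_div]
  have h3 : ∫ z in {z : ℂ | 0 < z.im}, (φ z : ℂ) / ((z.im : ℂ) ^ 2) =
      ((∫ z in {z : ℂ | 0 < z.im}, φ z / z.im ^ 2 : ℝ) : ℂ) := by
    rw [← integral_complex_ofReal]
    congr 1
    funext z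
    push_cast
    rfl
  rw [h3, h2]
  have h4 : (-4 * (Real.pi : ℂ) ^ 2 * ((∫ z : ℂ, φ z / z.im ^ 2 : ℝ) : ℂ)).re =
      -4 * Real.pi ^ 2 * ∫ z : ℂ, φ z / z.im ^ 2 := by
    have : (-4 * (Real.pi : ℂ) ^ 2 * ((∫ z : ℂ, φ z / z.im ^ 2 : ℝ) : ℂ)) =
      ((-4 * Real.pi ^ 2 * ∫ z : ℂ, φ z / z.im ^ 2 : ℝ) : ℂ) := by push_cast; rfl
    rw [this, Complex.ofReal_re]
  rw [h4]
  have := Real.pi_pos
  have h5 : 0 < 4 * Real.pi ^ 2 * ∫ z : ℂ, φ z / z.im ^ 2 := by positivity
  linarith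

theorem padj_self (a : M3) : padj a a = (2 : ℂ) • a.adjugate := by
  unfold padj
  rw [← two_smul ℂ a, Matrix.adjugate_smul]
  simp only [Fintype.card_fin]
  rw [sub_sub, ← two_smul ℂ a.adjugate, ← sub_smul]
  norm_num

/-- **Main theorem.** -/
theorem main : ∃ (X : Type) (_ : TopologicalSpace X) (_ : CompactSpace X) (_ : T2Space X)
    (_ : ConnectedSpace X) (_ : ChartedSpace (Cn 3) X) (_ : IsManifold 𝓘(ℂ, Cn 3) ω X)
    (_ : MeasurableSpace X) (_ : BorelSpace X),
    (∃ h : HermitianMetric 3 X, IsKahler h) ∧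
    (∃ h : HermitianMetric 3 X, IsBalanced h ∧ IsGauduchon h ∧ ∃ T < 0, HasTotalScalar h T) ∧
    ∀ h : HermitianMetric 3 X, IsKahler h → ∃ T > 0, HasTotalScalar h T := by
  obtain ⟨X, _, _, _, _, _, _, qq, hQ, hqc⟩ := exists_isQ
  obtain ⟨φ, hφ⟩ := exists_cutoff
  refine ⟨X, inferInstance, inferInstance, inferInstance, inferInstance, inferInstance, inferInstance,
    borel X, @BorelSpace.mk X _ (borel X) rfl, ?_, ?_, ?_⟩
  · obtain ⟨h, hr⟩ := exists_metric hQ isMet_mg0
    exact ⟨h, (isKahler_iff hQ h hr).2 closed_mg0⟩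
  · let _ : MeasurableSpace X := borel X
    have _ : BorelSpace X := ⟨rfl⟩
    obtain ⟨h, hr⟩ := exists_metric hQ isMet_mG
    have hb : IsBalanced h := (isBalanced_iff hQ h hr).2 fun i p hp k => balanced_mG i hp k
    refine ⟨h, hb, isGauduchon_of_isBalanced hb, ?_⟩
    obtain ⟨-, hT⟩ := total_scalar hQ (hqc 0) hφ h isMet_mG hr fun p hp k => balanced_Gm hp k
    refine ⟨_, ?_, hT⟩
    have := phi_Gm_neg hφ
    change 4 * (Phi φ Gm Gm).re < 0
    linarith
  · let _ : MeasurableSpace X := borel X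
    have _ : BorelSpace X := ⟨rfl⟩
    intro h hK
    obtain ⟨m, hm, hr⟩ := exists_rep hQ h
    have hcl := (isKahler_iff hQ h hr).1 hK
    have hs : ∀ j k, ContDiffOn ℝ 1 (fun p => m 0 p j k) UU := fun j k =>
      (hm.smooth 0 j k).of_le (by exact_mod_cast le_top)
    obtain ⟨⟨C, hC⟩, hT⟩ := total_scalar hQ (hqc 0) hφ h hm hr fun p hp k =>
      padj_div_free hs hs (hcl 0) (hcl 0) hp k
    refine ⟨_, ?_, hT⟩
    have := phi_pos hφ (a := m 0) (C := C) ⟨hs, hm.herm 0, hcl 0, hm.equi, hC⟩ (hm.pos 0)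
    linarith

end Pool.Agent.TH598.KG
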