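import Pool.Agent.TH598.KG.Quo2

/-!
# Hermitian metrics on the quotient
-/

set_option autoImplicit false

open scoped Manifold ContDiff Topology ComplexConjugate MatrixGroups UpperHalfPlane Matrix
open MeasureTheory Set Filter

namespace Pool.Agent.TH598.KG

open Pool.Agent.W549.CY (Cn dz dzbar HermitianMetric chernRicci chernScalar)
open Pool.Agent.W711.KC (jj nn CG CG_far)
open UpperHalfPlane (ofComplex)

theorem hf_add_left {n : ℕ} (A B : Matrix (Fin n) (Fin n) ℂ) (v : Cn n) :
    hf (A + B) v = hf A v + hf B v := by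
  unfold hf
  simp only [Matrix.add_apply, add_mul, Finset.sum_add_distrib]

/-- the sesquilinear form of a matrix -/
noncomputable def sf {n : ℕ} (A : Matrix (Fin n) (Fin n) ℂ) (v w : Cn n) : ℂ :=
  ∑ j, ∑ k, A j k * v j * conj (w k)

theorem sf_self {n : ℕ} (A : Matrix (Fin n) (Fin n) ℂ) (v : Cn n) : sf A v v = hf A v := rfl

theorem sf_add_left {n : ℕ} (A : Matrix (Fin n) (Fin n) ℂ) (v v' w : Cn n) :
    sf A (v + v') w = sf A v w + sf A v' w := by
  unfold sf
  simp only [Pi.add_apply, mul_add, add_mul, Finset.sum_add_distrib]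

theorem sf_add_right {n : ℕ} (A : Matrix (Fin n) (Fin n) ℂ) (v w w' : Cn n) :
    sf A v (w + w') = sf A v w + sf A v w' := by
  unfold sf
  simp only [Pi.add_apply, map_add, mul_add, Finset.sum_add_distrib]

theorem sf_smul_left {n : ℕ} (A : Matrix (Fin n) (Fin n) ℂ) (c : ℂ) (v w : Cn n) :
    sf A (c • v) w = c * sf A v w := by
  unfold sf
  simp only [Pi.smul_apply, smul_eq_mul, Finset.mul_sum]
  refine Finset.sum_congr rfl fun j _ => Finset.sum_congr rfl fun k _ => ?_
  ring

theorem sf_smul_right {n : ℕ} (A : Matrix (Fin n) (Fin n) ℂ) (c : ℂ) (v w : Cn n) :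
    sf A v (c • w) = conj c * sf A v w := by
  unfold sf
  simp only [Pi.smul_apply, smul_eq_mul, Finset.mul_sum, map_mul]
  refine Finset.sum_congr rfl fun j _ => Finset.sum_congr rfl fun k _ => ?_
  ring

theorem sf_single {n : ℕ} (A : Matrix (Fin n) (Fin n) ℂ) (j k : Fin n) :
    sf A (Pi.single j 1) (Pi.single k 1) = A j k := by
  unfold sf
  rw [Finset.sum_eq_single j, Finset.sum_eq_single k]
  · simp
  · intro b _ hb
    rw [Pi.single_eq_of_ne hb]
    simp
  · simp
  · intro b _ hb
    rw [Pi.single_eq_of_ne hb]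
    simp
  · simp

/-- polarisation -/
theorem sf_eq_hf {n : ℕ} (A : Matrix (Fin n) (Fin n) ℂ) (v w : Cn n) :
    4 * sf A v w = hf A (v + w) - hf A (v + (-1 : ℂ) • w) +
      Complex.I * (hf A (v + Complex.I • w) - hf A (v + (-Complex.I) • w)) := by
  simp only [← sf_self, sf_add_left, sf_add_right, sf_smul_left, sf_smul_right, map_neg, map_one,
    Complex.conj_I]
  linear_combination (sf A v w * 2 - sf A w v * 2) * Complex.I_sq

/-- equality of sesquilinear forms, along a linear map. -/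
theorem sf_pull {n : ℕ} {A B : Matrix (Fin n) (Fin n) ℂ} {L : Cn n →L[ℂ] Cn n}
    (h : ∀ v, hf A v = hf B (L v)) (v w : Cn n) : sf A v w = sf B (L v) (L w) := by
  have h1 := sf_eq_hf A v w
  have h2 := sf_eq_hf B (L v) (L w)
  simp only [h, map_add, map_smul] at h1
  rw [← h2] at h1
  exact mul_left_cancel₀ (by norm_num) h1

theorem hf_ext' {n : ℕ} {A B : Matrix (Fin n) (Fin n) ℂ} (h : ∀ v, hf A v = hf B v) : A = B := by
  ext j k
  rw [← sf_single A j k, ← sf_single B j k]
  exact sf_pull (L := ContinuousLinearMap.id ℂ _) h _ _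

theorem sf_right_sum {n : ℕ} (B : Matrix (Fin n) (Fin n) ℂ) (v w : Cn n) :
    sf B v w = ∑ a, ∑ b, v a * conj (w b) * B a b := by
  unfold sf
  refine Finset.sum_congr rfl fun j _ => Finset.sum_congr rfl fun k _ => ?_
  ring

theorem hf_of_transform {n : ℕ} {A B : Matrix (Fin n) (Fin n) ℂ} {L : Cn n →L[ℂ] Cn n}
    (h : ∀ j k, A j k = ∑ a, ∑ b, L (Pi.single j 1) a * conj (L (Pi.single k 1) b) * B a b)
    (v : Cn n) : hf A v = hf B (L v) := by
  have h1 : ∀ j k, A j k = sf B (L (Pi.single j 1)) (L (Pi.single k 1)) := fun j k => by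
    rw [sf_right_sum, h]
  have h2 : v = ∑ j, v j • (Pi.single j 1 : Cn n) := by
    funext i
    simp [Finset.sum_apply, Pi.single_apply]
  have hl : ∀ (s : Finset (Fin n)) (f : Fin n → Cn n) (w : Cn n),
      sf B (∑ j ∈ s, f j) w = ∑ j ∈ s, sf B (f j) w := by
    intro s f w
    induction s using Finset.induction_on with
    | empty => simp [sf]
    | insert a s ha ih => rw [Finset.sum_insert ha, Finset.sum_insert ha, sf_add_left, ih]
  have hr : ∀ (s : Finset (Fin n)) (f : Fin n → Cn n) (w : Cn n),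
      sf B w (∑ j ∈ s, f j) = ∑ j ∈ s, sf B w (f j) := by
    intro s f w
    induction s using Finset.induction_on with
    | empty => simp [sf]
    | insert a s ha ih => rw [Finset.sum_insert ha, Finset.sum_insert ha, sf_add_right, ih]
  have h3 : L v = ∑ j, v j • L (Pi.single j 1) := by
    conv_lhs => rw [h2]
    rw [map_sum]
    simp only [map_smul]
  rw [← sf_self B, h3, hl]
  unfold hf
  refine Finset.sum_congr rfl fun j _ => ?_
  rw [hr]
  refine Finset.sum_congr rfl fun k _ => ?_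
  rw [sf_smul_left, sf_smul_right, ← h1]
  ring

variable {X : Type} [TopologicalSpace X] [ChartedSpace (Cn 3) X] {qq : Fin 3 → Cn 3 → X}

theorem continuousAt_hom (g : SL(2, ℝ)) (i j : Fin 3) (p : Cn 3) :
    ContinuousAt (fun x : Cn 3 => hom g i x j) p := by
  have hc : Continuous fun x : Cn 3 => hom g i x := by
    refine continuous_dg.comp (Continuous.prodMk ?_ (continuous_ins i))
    fun_prop
  exact ((continuous_apply j).comp hc).continuousAt

theorem chart_FF_aux (hQ : IsQ X qq) {e e' : OpenPartialHomeomorph X (Cn 3)} {i j : Fin 3}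
    (hi : e.target ⊆ UU) (hi' : ∀ p ∈ e.target, e.symm p = qq i p)
    (hj' : ∀ p ∈ e'.target, e'.symm p = qq j p) {p : Cn 3} (hp : p ∈ e.target) {g : SL(2, ℝ)}
    (hg : g ∈ CG) (h4 : hom g i p j ≠ 0) (h5 : FF g i j p ∈ e'.target) :
    (e' ∘ e.symm) =ᶠ[𝓝 p] FF g i j := by
  have hF := contDiffAt_FF (hi hp) h4
  have c1 : ∀ᶠ y in 𝓝 p, FF g i j y ∈ e'.target :=
    hF.continuousAt.eventually_mem (e'.open_target.mem_nhds h5)
  have c2 : ∀ᶠ y in 𝓝 p, hom g i y j ≠ 0 := (continuousAt_hom g i j _).eventually_ne h4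
  filter_upwards [c1, c2, e.open_target.mem_nhds hp] with y hy1 hy2 hy3
  have h6 : qq i y = qq j (FF g i j y) :=
    (hQ.eq_iff i j _ (hi hy3) _ (FF_mem (hi hy3))).2 ⟨g, hg, hy2, rfl⟩
  show e' (e.symm y) = FF g i j y
  rw [hi' y hy3, h6, ← hj' _ hy1, e'.right_inv hy1]

/-- Two charts differ by `FF g i j`. -/
theorem chart_FF (hQ : IsQ X qq) {e e' : OpenPartialHomeomorph X (Cn 3)} {i j : Fin 3}
    (hi : e.target ⊆ UU) (hi' : ∀ p ∈ e.target, e.symm p = qq i p)
    (hj : e'.target ⊆ UU) (hj' : ∀ p ∈ e'.target, e'.symm p = qq j p) {x : X}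
    (hx : x ∈ e.source ∩ e'.source) :
    ∃ g ∈ CG, hom g i (e x) j ≠ 0 ∧ e' x = FF g i j (e x) ∧
      (e' ∘ e.symm) =ᶠ[𝓝 (e x)] FF g i j := by
  have h1 := e.map_source hx.1
  have h2 := e'.map_source hx.2
  have h3 : qq i (e x) = qq j (e' x) := by
    rw [← hi' _ h1, ← hj' _ h2, e.left_inv hx.1, e'.left_inv hx.2]
  obtain ⟨g, hg, h4, h5⟩ := (hQ.eq_iff i j _ (hi h1) _ (hj h2)).1 h3
  refine ⟨g, hg, h4, h5, ?_⟩
  refine chart_FF_aux hQ hi hi' hj' h1 hg h4 ?_
  rw [← h5]
  exact h2

open ComplexOrder in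
theorem posDef_iff_hf {n : ℕ} {A : Matrix (Fin n) (Fin n) ℂ} :
    A.PosDef ↔ A.IsHermitian ∧ ∀ v : Cn n, v ≠ 0 → 0 < (hf A v).re := by
  have hb : ∀ v : Cn n, star v ⬝ᵥ (A *ᵥ v) = hf A (star v) := by
    intro v
    unfold hf dotProduct Matrix.mulVec dotProduct
    simp only [Finset.mul_sum]
    refine Finset.sum_congr rfl fun j _ => Finset.sum_congr rfl fun k _ => ?_
    simp only [Pi.star_apply, RCLike.star_def, Complex.conj_conj]
    ring
  rw [Matrix.posDef_iff_dotProduct_mulVec]
  constructor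
  · rintro ⟨h1, h2⟩
    refine ⟨h1, fun v hv => ?_⟩
    have h3 := h2 (x := star v) (by rwa [ne_eq, star_eq_zero])
    rw [hb, star_star] at h3
    exact (Complex.pos_iff.1 h3).1
  · rintro ⟨h1, h2⟩
    refine ⟨h1, fun v hv => ?_⟩
    rw [hb, Complex.pos_iff]
    refine ⟨h2 _ (by rwa [ne_eq, star_eq_zero]), ?_⟩
    have h4 : conj (hf A (star v)) = hf A (star v) := by
      unfold hf
      simp only [map_sum, map_mul, Complex.conj_conj]
      rw [Finset.sum_comm]
      refine Finset.sum_congr rfl fun j _ => Finset.sum_congr rfl fun k _ => ?_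
      have := h1.apply j k
      rw [RCLike.star_def] at this
      rw [this]
      ring
    exact (Complex.conj_eq_iff_im.1 h4).symm

/-- The Hermitian metric with given matrices. -/
noncomputable def mkMetric (hQ : IsQ X qq) {m : Fin 3 → Cn 3 → M3} (hm : IsMet m) :
    HermitianMetric 3 X where
  g := open Classical in fun e z =>
    if he : e ∈ atlas (Cn 3) X then m (hQ.atlas_spec e he).choose z else 0
  smooth := by
    intro e he j k
    simp only [dif_pos he]
    exact (hm.smooth _ j k).mono (hQ.atlas_spec e he).choose_spec.1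
  posDef := by
    intro e he z hz
    simp only [dif_pos he]
    have hzU := (hQ.atlas_spec e he).choose_spec.1 hz
    exact posDef_iff_hf.2 ⟨hm.herm _ z hzU, hm.pos _ z hzU⟩
  transform := by
    intro e he e' he' x hx j k
    simp only [dif_pos he, dif_pos he']
    obtain ⟨hi, hi'⟩ := (hQ.atlas_spec e he).choose_spec
    obtain ⟨hj, hj'⟩ := (hQ.atlas_spec e' he').choose_spec
    obtain ⟨g, hg, h4, h5, h6⟩ := chart_FF hQ hi hi' hj hj' hx
    have h7 := hm.compat g hg _ _ _ (hi (e.map_source hx.1)) h4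
    have h8 := sf_pull (L := fderiv ℂ (FF g _ _) (e x)) h7 (Pi.single j 1) (Pi.single k 1)
    have h9 : fderiv ℂ (e' ∘ e.symm) (e x) = fderiv ℂ (FF g _ _) (e x) :=
      Filter.EventuallyEq.fderiv_eq (𝕜 := ℂ) h6
    rw [sf_single, sf_right_sum, ← h5, ← h9] at h8
    exact h8

/-- Construction of a Hermitian metric from its matrices in the charts. -/
theorem exists_metric (hQ : IsQ X qq) {m : Fin 3 → Cn 3 → M3} (hm : IsMet m) :
    ∃ h : HermitianMetric 3 X, Rep qq h m := by
  classical
  refine ⟨mkMetric hQ hm, ?_⟩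
  intro e he i hi hi' p hp
  have h0 : (mkMetric hQ hm).g e p = m (hQ.atlas_spec e he).choose p := dif_pos he
  rw [h0]
  obtain ⟨hj, hj'⟩ := (hQ.atlas_spec e he).choose_spec
  have hx : e.symm p ∈ e.source := e.map_target hp
  obtain ⟨g, hg, h4, h5, h6⟩ := chart_FF hQ hj hj' hi hi' ⟨hx, hx⟩
  rw [e.right_inv hp] at h4 h5 h6
  have h7 : FF g (hQ.atlas_spec e he).choose i =ᶠ[𝓝 p] id := by
    refine h6.symm.trans ?_
    filter_upwards [e.open_target.mem_nhds hp] with y hy
    exact e.right_inv hy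
  apply hf_ext'
  intro v
  rw [hm.compat g hg _ _ _ (hi hp) h4 v, ← h5,
    Filter.EventuallyEq.fderiv_eq (𝕜 := ℂ) h7, fderiv_id]
  rfl

/-- two charts with the same index give the same matrix. -/
theorem metric_same (h : HermitianMetric 3 X) {e e' : OpenPartialHomeomorph X (Cn 3)}
    (he : e ∈ atlas (Cn 3) X) (he' : e' ∈ atlas (Cn 3) X) {i : Fin 3}
    (hi' : ∀ p ∈ e.target, e.symm p = qq i p) (hj' : ∀ p ∈ e'.target, e'.symm p = qq i p)
    {p : Cn 3} (hp : p ∈ e.target) (hp' : p ∈ e'.target) : h.g e p = h.g e' p := by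
  have hx : qq i p ∈ e.source := by rw [← hi' p hp]; exact e.map_target hp
  have hx' : qq i p ∈ e'.source := by rw [← hj' p hp']; exact e'.map_target hp'
  have h1 : e (qq i p) = p := by rw [← hi' p hp, e.right_inv hp]
  have h2 : e' (qq i p) = p := by rw [← hj' p hp', e'.right_inv hp']
  have h3 : (e' ∘ e.symm) =ᶠ[𝓝 p] id := by
    filter_upwards [e.open_target.mem_nhds hp, e'.open_target.mem_nhds hp'] with y hy hy'
    show e' (e.symm y) = y
    rw [hi' y hy, ← hj' y hy', e'.right_inv hy']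
  have h4 := h.transform e he e' he' (qq i p) ⟨hx, hx'⟩
  rw [h1, h2, Filter.EventuallyEq.fderiv_eq (𝕜 := ℂ) h3, fderiv_id] at h4
  apply hf_ext'
  intro v
  exact hf_of_transform (L := ContinuousLinearMap.id ℂ _) h4 v

/-- The matrices of a Hermitian metric. -/
theorem exists_rep (hQ : IsQ X qq) (h : HermitianMetric 3 X) :
    ∃ m : Fin 3 → Cn 3 → M3, IsMet m ∧ Rep qq h m := by
  classical
  set m : Fin 3 → Cn 3 → M3 := fun i p =>
    if hp : p ∈ UU then h.g (hQ.exists_chart i p hp).choose p else 0 with hm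
  have hR : Rep qq h m := by
    intro e he i hi hi' p hp
    rw [hm]
    simp only [dif_pos (hi hp)]
    obtain ⟨h1, h2, h3, h4⟩ := (hQ.exists_chart i p (hi hp)).choose_spec
    exact metric_same h he h1 hi' h4 hp h2
  refine ⟨m, ⟨?_, ?_, ?_, ?_⟩, hR⟩
  · intro i j k p hp
    obtain ⟨e, he, hpe, heU, hes⟩ := hQ.exists_chart i p hp
    apply ContDiffAt.contDiffWithinAt
    refine ((h.smooth e he j k).contDiffAt (e.open_target.mem_nhds hpe)).congr_of_eventuallyEq ?_
    filter_upwards [e.open_target.mem_nhds hpe] with q hq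
    rw [hR e he i heU hes q hq]
  · intro i p hp
    obtain ⟨e, he, hpe, heU, hes⟩ := hQ.exists_chart i p hp
    rw [← hR e he i heU hes p hpe]
    exact (posDef_iff_hf.1 (h.posDef e he p hpe)).1
  · intro i p hp
    obtain ⟨e, he, hpe, heU, hes⟩ := hQ.exists_chart i p hp
    rw [← hR e he i heU hes p hpe]
    exact (posDef_iff_hf.1 (h.posDef e he p hpe)).2
  · intro g hg i j p hp h4 v
    obtain ⟨e, he, hpe, heU, hes⟩ := hQ.exists_chart i p hp
    obtain ⟨e', he', hpe', heU', hes'⟩ := hQ.exists_chart j (FF g i j p) (FF_mem hp)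
    have h6 := chart_FF_aux hQ heU hes hes' hpe hg h4 hpe'
    have h7 : qq i p = qq j (FF g i j p) := (hQ.eq_iff i j p hp _ (FF_mem hp)).2 ⟨g, hg, h4, rfl⟩
    have hx : qq i p ∈ e.source := by rw [← hes p hpe]; exact e.map_target hpe
    have hx' : qq i p ∈ e'.source := by rw [h7, ← hes' _ hpe']; exact e'.map_target hpe'
    have h1 : e (qq i p) = p := by rw [← hes p hpe, e.right_inv hpe]
    have h2 : e' (qq i p) = FF g i j p := by rw [h7, ← hes' _ hpe', e'.right_inv hpe']
    have h8 := h.transform e he e' he' (qq i p) ⟨hx, hx'⟩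
    rw [h1, h2, Filter.EventuallyEq.fderiv_eq (𝕜 := ℂ) h6] at h8
    rw [← hR e he i heU hes p hpe, ← hR e' he' j heU' hes' _ hpe']
    exact hf_of_transform h8 v

theorem dz_congr' {n : ℕ} {j : Fin n} {u w : Cn n → ℂ} {z : Cn n} (h : u =ᶠ[𝓝 z] w) :
    dz j u z = dz j w z := by
  unfold dz
  rw [h.fderiv_eq]

theorem isKahler_iff (hQ : IsQ X qq) (h : HermitianMetric 3 X) {m : Fin 3 → Cn 3 → M3}
    (hr : Rep qq h m) : IsKahler h ↔ ∀ i, Closed (m i) := by
  constructor
  · intro hK i p hp a b c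
    obtain ⟨e, he, hpe, heU, hes⟩ := hQ.exists_chart i p hp
    have h1 : ∀ j k, (fun q => m i q j k) =ᶠ[𝓝 p] fun q => h.g e q j k := by
      intro j k
      filter_upwards [e.open_target.mem_nhds hpe] with q hq
      rw [hr e he i heU hes q hq]
    rw [dz_congr' (h1 b c), dz_congr' (h1 a c)]
    exact hK e he p hpe a b c
  · intro hm e he p hpe a b c
    obtain ⟨i, heU, hes⟩ := hQ.atlas_spec e he
    have h1 : ∀ j k, (fun q => h.g e q j k) =ᶠ[𝓝 p] fun q => m i q j k := by
      intro j k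
      filter_upwards [e.open_target.mem_nhds hpe] with q hq
      rw [hr e he i heU hes q hq]
    rw [dz_congr' (h1 b c), dz_congr' (h1 a c)]
    exact hm i p (heU hpe) a b c

theorem isBalanced_iff (hQ : IsQ X qq) (h : HermitianMetric 3 X) {m : Fin 3 → Cn 3 → M3}
    (hr : Rep qq h m) :
    IsBalanced h ↔ ∀ i, ∀ p ∈ UU, ∀ k, ∑ j, dz j (fun q => (m i q).adjugate k j) p = 0 := by
  constructor
  · intro hK i p hp k
    obtain ⟨e, he, hpe, heU, hes⟩ := hQ.exists_chart i p hp
    rw [← hK e he p hpe k]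
    refine Finset.sum_congr rfl fun j _ => dz_congr' ?_
    filter_upwards [e.open_target.mem_nhds hpe] with q hq
    rw [hr e he i heU hes q hq]
  · intro hm e he p hpe k
    obtain ⟨i, heU, hes⟩ := hQ.atlas_spec e he
    rw [← hm i p (heU hpe) k]
    refine Finset.sum_congr rfl fun j _ => dz_congr' ?_
    filter_upwards [e.open_target.mem_nhds hpe] with q hq
    rw [hr e he i heU hes q hq]

section general

variable {n : ℕ}

theorem fderiv_conj_apply (f : Cn n → ℂ) (z v : Cn n) :
    fderiv ℝ (fun w => conj (f w)) z v = conj (fderiv ℝ f z v) := by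
  have h := Complex.conjCLE.comp_fderiv (f := f) (x := z)
  have h2 : (fun w => conj (f w)) = Complex.conjCLE ∘ f := rfl
  rw [h2, h]
  rfl

theorem dz_conj (j : Fin n) (f : Cn n → ℂ) (z : Cn n) :
    dz j (fun w => conj (f w)) z = conj (dzbar j f z) := by
  unfold dz dzbar
  rw [fderiv_conj_apply, fderiv_conj_apply]
  simp only [map_mul, map_add, map_div₀, map_one, map_ofNat, Complex.conj_I]
  ring

theorem dzbar_conj (j : Fin n) (f : Cn n → ℂ) (z : Cn n) :
    dzbar j (fun w => conj (f w)) z = conj (dz j f z) := by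
  unfold dz dzbar
  rw [fderiv_conj_apply, fderiv_conj_apply]
  simp only [map_mul, map_sub, map_div₀, map_one, map_ofNat, Complex.conj_I]
  ring

theorem dz_sum (j : Fin n) (f : Fin n → Cn n → ℂ) (z : Cn n)
    (hf : ∀ k, DifferentiableAt ℝ (f k) z) :
    dz j (fun w => ∑ k, f k w) z = ∑ k, dz j (f k) z := by
  unfold dz
  rw [fderiv_fun_sum fun k _ => hf k]
  simp only [sum_apply, Finset.mul_sum, ← Finset.sum_sub_distrib]

theorem dz_const (j : Fin n) (c : ℂ) (z : Cn n) : dz j (fun _ => c) z = 0 := by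
  unfold dz
  simp

theorem contDiffOn_adjugate {S : Set (Cn n)} {g : Cn n → Matrix (Fin n) (Fin n) ℂ}
    (hg : ∀ j k, ContDiffOn ℝ ∞ (fun z => g z j k) S) (k j : Fin n) :
    ContDiffOn ℝ ∞ (fun z => (g z).adjugate k j) S := by
  simp only [Matrix.adjugate_apply, Matrix.det_apply]
  refine ContDiffOn.sum fun σ _ => ?_
  refine ContDiffOn.const_smul _ ?_
  refine contDiffOn_prod fun i _ => ?_
  by_cases h : σ i = j
  · simp only [Matrix.updateRow_apply, h, if_true]
    exact contDiffOn_const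
  · simp only [Matrix.updateRow_apply, h, if_false]
    exact hg _ _

theorem differentiableAt_dzbar {f : Cn n → ℂ} {z : Cn n} (hf : ContDiffAt ℝ ∞ f z) (k : Fin n) :
    DifferentiableAt ℝ (dzbar k f) z := by
  have h1 : DifferentiableAt ℝ (fderiv ℝ f) z :=
    (hf.fderiv_right (m := ∞) (by simp)).differentiableAt (by simp)
  unfold dzbar
  exact ((h1.clm_apply (differentiableAt_const _)).add
    ((h1.clm_apply (differentiableAt_const _)).const_mul _)).const_mul _

variable {X : Type} [TopologicalSpace X] [ChartedSpace (Cn n) X]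

/-- A balanced metric is a Gauduchon metric. -/
theorem isGauduchon_of_isBalanced {h : HermitianMetric n X} (hh : IsBalanced h) :
    IsGauduchon h := by
  intro e he z hz
  have hs := contDiffOn_adjugate (h.smooth e he)
  have hsa : ∀ k j, ∀ w ∈ e.target, ContDiffAt ℝ ∞ (fun z => (h.g e z).adjugate k j) w :=
    fun k j w hw => (hs k j).contDiffAt (e.open_target.mem_nhds hw)
  refine Finset.sum_eq_zero fun j _ => ?_
  rw [← dz_sum j (fun k => dzbar k fun w => (h.g e w).adjugate k j) z
    fun k => differentiableAt_dzbar (hsa k j z hz) k]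
  rw [← dz_const j 0 z]
  apply dz_congr'
  filter_upwards [e.open_target.mem_nhds hz] with w hw
  have h1 : ∀ k, dzbar k (fun w => (h.g e w).adjugate k j) w =
      conj (dz k (fun w => (h.g e w).adjugate j k) w) := by
    intro k
    rw [← dzbar_conj]
    unfold dzbar
    have h2 : (fun w => (h.g e w).adjugate k j) =ᶠ[𝓝 w] fun w => conj ((h.g e w).adjugate j k) := by
      filter_upwards [e.open_target.mem_nhds hw] with y hy
      have h3 := (posDef_iff_hf.1 (h.posDef e he y hy)).1
      have h4 : ((h.g e y).adjugate)ᴴ = (h.g e y).adjugate := by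
        rw [Matrix.adjugate_conjTranspose, h3.eq]
      have h5 := congrFun (congrFun h4 k) j
      rw [Matrix.conjTranspose_apply] at h5
      exact h5.symm
    rw [h2.fderiv_eq]
  simp only [h1]
  rw [← map_sum, hh e he w hw j, map_zero]

end general

end Pool.Agent.TH598.KG
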