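import Pool.Agent.TH598.KG.MDefs

/-!
# The quotient of `ℍ × (ℂ³ ∖ 0)` by `Γ × ℂˣ`: topology
-/

set_option autoImplicit false

open scoped Manifold ContDiff Topology ComplexConjugate MatrixGroups UpperHalfPlane Matrix
open Set Filter

namespace Pool.Agent.TH598.KG

open Pool.Agent.W549.CY (Cn)
open Pool.Agent.W711.KC (jj nn CG jj_ne jj_mul nn_mul im_mob CG_far NN_pos)

/-- `ℍ × (ℂ³ ∖ 0)`. -/
abbrev YY : Type := {y : ℍ × Cn 3 // y.2 ≠ 0}

/-- The map `x ↦ (a x 0, x 1, x 2)`. -/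
noncomputable def dg (a : ℂ) (x : Cn 3) : Cn 3 := ![a * x 0, x 1, x 2]

theorem dg_ne {a : ℂ} (ha : a ≠ 0) {x : Cn 3} (hx : x ≠ 0) : dg a x ≠ 0 := by
  intro h
  apply hx
  have h0 := congrFun h 0
  have h1 := congrFun h 1
  have h2 := congrFun h 2
  simp [dg, ha] at h0 h1 h2
  funext i
  fin_cases i
  · exact h0
  · exact h1
  · exact h2

theorem dg_mul (a b : ℂ) (x : Cn 3) : dg (a * b) x = dg a (dg b x) := by
  funext i
  fin_cases i <;> simp [dg, mul_assoc]

theorem dg_one (x : Cn 3) : dg 1 x = x := by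
  funext i
  fin_cases i <;> simp [dg]

theorem dg_smul (a c : ℂ) (x : Cn 3) : dg a (c • x) = c • dg a x := by
  funext i
  fin_cases i
  · simp [dg]; ring
  · simp [dg]
  · simp [dg]

theorem continuous_dg : Continuous fun q : ℂ × Cn 3 => dg q.1 q.2 := by
  refine continuous_pi fun i => ?_
  fin_cases i
  · exact continuous_fst.mul ((continuous_apply 0).comp continuous_snd)
  · show Continuous fun q : ℂ × Cn 3 => q.2 1
    fun_prop
  · show Continuous fun q : ℂ × Cn 3 => q.2 2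
    fun_prop

/-- The group `Γ × ℂˣ`. -/
abbrev GZ : Type := CG × ℂˣ

theorem coe_smul_H (g : SL(2, ℝ)) (z : ℍ) : ((g • z : ℍ) : ℂ) = nn g z / jj g z := by
  rw [UpperHalfPlane.coe_specialLinearGroup_apply]
  rfl

theorem jj_one' (t : ℂ) : jj 1 t = 1 := by simp [jj]

noncomputable instance : MulAction GZ YY where
  smul γ y := ⟨(γ.1.1 • y.1.1, (γ.2 : ℂ) • dg (jj γ.1.1 y.1.1) y.1.2),
    smul_ne_zero γ.2.ne_zero (dg_ne (jj_ne _ y.1.1.im_pos) y.2)⟩
  one_smul y := by
    apply Subtype.ext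
    refine Prod.ext ?_ ?_
    · exact one_smul _ _
    · show ((1 : ℂˣ) : ℂ) • dg (jj (1 : SL(2, ℝ)) y.1.1) y.1.2 = y.1.2
      rw [jj_one', dg_one, Units.val_one, one_smul]
  mul_smul γ γ' y := by
    apply Subtype.ext
    refine Prod.ext ?_ ?_
    · exact mul_smul _ _ _
    · show (((γ.2 * γ'.2 : ℂˣ)) : ℂ) • dg (jj (γ.1.1 * γ'.1.1) y.1.1) y.1.2 =
        (γ.2 : ℂ) • dg (jj γ.1.1 ((γ'.1.1 • y.1.1 : ℍ) : ℂ)) ((γ'.2 : ℂ) • dg (jj γ'.1.1 y.1.1) y.1.2)
      rw [jj_mul _ _ y.1.1.im_pos, coe_smul_H, dg_smul, dg_mul, Units.val_mul, mul_smul]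

theorem smul_val (γ : GZ) (y : YY) : (γ • y).1 =
    (γ.1.1 • y.1.1, (γ.2 : ℂ) • dg (jj γ.1.1 y.1.1) y.1.2) := rfl

theorem continuous_jj (g : SL(2, ℝ)) : Continuous fun z : ℍ => jj g z := by
  unfold jj
  exact (continuous_const.mul UpperHalfPlane.continuous_coe).add continuous_const

instance : ContinuousConstSMul GZ YY where
  continuous_const_smul γ := by
    rw [continuous_induced_rng]
    refine Continuous.prodMk ?_ ?_
    · exact (continuous_fst.comp continuous_subtype_val).const_smul γ.1.1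
    · refine Continuous.const_smul ?_ (γ.2 : ℂ)
      refine continuous_dg.comp (Continuous.prodMk ?_ ?_)
      · exact (continuous_jj γ.1.1).comp (continuous_fst.comp continuous_subtype_val)
      · exact continuous_snd.comp continuous_subtype_val

/-- The quotient. -/
abbrev MX : Type := MulAction.orbitRel.Quotient GZ YY

/-- The projection. -/
noncomputable def pj (y : YY) : MX := Quotient.mk _ y

theorem pj_surj : Function.Surjective pj := Quotient.mk_surjective

theorem pj_eq_iff {a b : YY} : pj a = pj b ↔ ∃ g ∈ CG, ∃ c : ℂ, c ≠ 0 ∧ b.1.1 = g • a.1.1 ∧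
    b.1.2 = c • dg (jj g a.1.1) a.1.2 := by
  unfold pj
  rw [eq_comm, Quotient.eq'', MulAction.orbitRel_apply, MulAction.mem_orbit_iff]
  constructor
  · rintro ⟨γ, h⟩
    have h' := congrArg Subtype.val h
    rw [smul_val] at h'
    exact ⟨γ.1.1, γ.1.2, γ.2, γ.2.ne_zero, (congrArg Prod.fst h').symm, (congrArg Prod.snd h').symm⟩
  · rintro ⟨g, hg, c, hc, h1, h2⟩
    refine ⟨(⟨g, hg⟩, Units.mk0 c hc), ?_⟩
    apply Subtype.ext
    rw [smul_val]
    exact Prod.ext h1.symm h2.symm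

theorem isOpenQuotientMap_pj : IsOpenQuotientMap pj := MulAction.isOpenQuotientMap_quotientMk

theorem continuous_pj : Continuous pj := isOpenQuotientMap_pj.continuous

theorem parallel_iff {x x' : Cn 3} (hx : x ≠ 0) (hx' : x' ≠ 0) :
    (∃ c : ℂ, c ≠ 0 ∧ x' = c • x) ↔ ∀ i j, x' i * x j = x' j * x i := by
  constructor
  · rintro ⟨c, -, rfl⟩ i j
    simp only [Pi.smul_apply, smul_eq_mul]
    ring
  · intro h
    obtain ⟨j, hj⟩ := Function.ne_iff.1 hx
    rw [Pi.zero_apply] at hj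
    have h1 : x' = (x' j / x j) • x := by
      funext i
      rw [Pi.smul_apply, smul_eq_mul, div_mul_eq_mul_div, eq_div_iff hj]
      exact h i j
    refine ⟨x' j / x j, ?_, h1⟩
    intro h0
    rw [h0, zero_smul] at h1
    exact hx' h1

/-- the closed relation given by `g`. -/
def Rg (g : SL(2, ℝ)) : Set (YY × YY) :=
  {q | q.2.1.1 = g • q.1.1.1 ∧ ∀ i j, q.2.1.2 i * dg (jj g q.1.1.1) q.1.1.2 j =
    q.2.1.2 j * dg (jj g q.1.1.1) q.1.1.2 i}

theorem isClosed_Rg (g : SL(2, ℝ)) : IsClosed (Rg g) := by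
  have c1 : Continuous fun q : YY × YY => q.1.1.1 :=
    continuous_fst.comp (continuous_subtype_val.comp continuous_fst)
  have c2 : Continuous fun q : YY × YY => q.1.1.2 :=
    continuous_snd.comp (continuous_subtype_val.comp continuous_fst)
  have c3 : Continuous fun q : YY × YY => q.2.1.1 :=
    continuous_fst.comp (continuous_subtype_val.comp continuous_snd)
  have c4 : Continuous fun q : YY × YY => q.2.1.2 :=
    continuous_snd.comp (continuous_subtype_val.comp continuous_snd)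
  have c5 : Continuous fun q : YY × YY => dg (jj g q.1.1.1) q.1.1.2 :=
    continuous_dg.comp (((continuous_jj g).comp c1).prodMk c2)
  have e : Rg g = {q | q.2.1.1 = g • q.1.1.1} ∩ ⋂ i, ⋂ j,
      {q : YY × YY | q.2.1.2 i * dg (jj g q.1.1.1) q.1.1.2 j =
        q.2.1.2 j * dg (jj g q.1.1.1) q.1.1.2 i} := by
    ext q
    simp [Rg]
  rw [e]
  refine (isClosed_eq c3 (c1.const_smul g)).inter (isClosed_iInter fun i => isClosed_iInter fun j => ?_)
  exact isClosed_eq (((continuous_apply i).comp c4).mul ((continuous_apply j).comp c5))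
    (((continuous_apply j).comp c4).mul ((continuous_apply i).comp c5))

theorem pj_eq_iff' {a b : YY} : pj a = pj b ↔ ∃ g ∈ CG, (a, b) ∈ Rg g := by
  rw [pj_eq_iff]
  constructor
  · rintro ⟨g, hg, c, hc, h1, h2⟩
    exact ⟨g, hg, h1, (parallel_iff (dg_ne (jj_ne _ a.1.1.im_pos) a.2) b.2).1 ⟨c, hc, h2⟩⟩
  · rintro ⟨g, hg, h1, h2⟩
    obtain ⟨c, hc, h3⟩ := (parallel_iff (dg_ne (jj_ne _ a.1.1.im_pos) a.2) b.2).2 h2
    exact ⟨g, hg, c, hc, h1, h3⟩

instance : T2Space MX := by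
  rw [t2Space_iff_of_isOpenQuotientMap isOpenQuotientMap_pj, ← isOpen_compl_iff, isOpen_iff_mem_nhds]
  rintro ⟨a, b⟩ hab
  rw [mem_compl_iff, mem_ofPred_eq, pj_eq_iff'] at hab
  push Not at hab
  have c1 : Continuous fun q : YY × YY => q.1.1.1 :=
    continuous_fst.comp (continuous_subtype_val.comp continuous_fst)
  have c3 : Continuous fun q : YY × YY => q.2.1.1 :=
    continuous_fst.comp (continuous_subtype_val.comp continuous_snd)
  have hW : {q : YY × YY | dist q.1.1.1 a.1.1 < 1 / 4 ∧ dist q.2.1.1 b.1.1 < 1 / 4} ∈ 𝓝 (a, b) := by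
    refine IsOpen.mem_nhds ?_ ⟨by simp, by simp⟩
    exact (isOpen_lt (c1.dist continuous_const) continuous_const).inter
      (isOpen_lt (c3.dist continuous_const) continuous_const)
  by_cases hg : ∃ g ∈ CG, dist (g • a.1.1) b.1.1 < 1 / 2
  · obtain ⟨g, hg, hd⟩ := hg
    have h1 : (Rg g)ᶜ ∈ 𝓝 (a, b) := (isClosed_Rg g).isOpen_compl.mem_nhds (hab g hg)
    filter_upwards [hW, h1] with q hq hq1
    rw [mem_compl_iff, mem_ofPred_eq, pj_eq_iff']
    rintro ⟨g', hg', hq2⟩
    have h2 : g' = g := by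
      refine CG_far.eq_of_dist_lt hg' hg (z := a.1.1) ?_
      have h3 : dist (g' • a.1.1) (g' • q.1.1.1) < 1 / 4 := by
        rw [dist_smul, dist_comm]; exact hq.1
      have h4 : dist (g' • q.1.1.1) b.1.1 < 1 / 4 := by
        rw [← hq2.1]; exact hq.2
      have h5 := dist_triangle4 (g' • a.1.1) (g' • q.1.1.1) b.1.1 (g • a.1.1)
      rw [dist_comm b.1.1] at h5
      linarith
    rw [h2] at hq2
    exact hq1 hq2
  · push Not at hg
    filter_upwards [hW] with q hq
    rw [mem_compl_iff, mem_ofPred_eq, pj_eq_iff']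
    rintro ⟨g', hg', hq2⟩
    have h3 : dist (g' • a.1.1) (g' • q.1.1.1) < 1 / 4 := by
      rw [dist_smul, dist_comm]; exact hq.1
    have h4 : dist (g' • q.1.1.1) b.1.1 < 1 / 4 := by
      rw [← hq2.1]; exact hq.2
    have h5 := dist_triangle (g' • a.1.1) (g' • q.1.1.1) b.1.1
    have := hg g' hg'
    linarith

instance : CompactSpace MX := by
  obtain ⟨K, hK, hK'⟩ := Pool.Agent.H85R3.HS.cocompact NN_pos
  have hS : IsCompact (Metric.sphere (0 : Cn 3) 1) := isCompact_sphere _ _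
  have hKS : IsCompact (K ×ˢ Metric.sphere (0 : Cn 3) 1) := hK.prod hS
  have h1 : IsCompact (Subtype.val ⁻¹' (K ×ˢ Metric.sphere (0 : Cn 3) 1) : Set YY) := by
    have hi : Topology.IsInducing (Subtype.val : YY → ℍ × Cn 3) := Topology.IsInducing.subtypeVal
    rw [hi.isCompact_iff]
    have e : (Subtype.val : YY → ℍ × Cn 3) '' (Subtype.val ⁻¹' (K ×ˢ Metric.sphere (0 : Cn 3) 1)) =
        K ×ˢ Metric.sphere (0 : Cn 3) 1 := by
      ext y
      constructor
      · rintro ⟨y, hy, rfl⟩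
        exact hy
      · intro hy
        refine ⟨⟨y, ?_⟩, hy, rfl⟩
        intro h0
        have hx := hy.2
        rw [h0] at hx
        simp at hx
    rw [e]
    exact hKS
  refine ⟨?_⟩
  have h2 : (univ : Set MX) = pj '' (Subtype.val ⁻¹' (K ×ˢ Metric.sphere (0 : Cn 3) 1)) := by
    symm
    rw [eq_univ_iff_forall]
    intro q
    obtain ⟨y, rfl⟩ := pj_surj q
    obtain ⟨g, hg, hz⟩ := hK' y.1.1
    have hx : dg (jj g y.1.1) y.1.2 ≠ 0 := dg_ne (jj_ne _ y.1.1.im_pos) y.2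
    have hn : ‖dg (jj g y.1.1) y.1.2‖ ≠ 0 := norm_ne_zero_iff.2 hx
    set c : ℂ := ((‖dg (jj g y.1.1) y.1.2‖⁻¹ : ℝ) : ℂ) with hc
    have hc0 : c ≠ 0 := by
      rw [hc]
      exact_mod_cast inv_ne_zero hn
    refine ⟨⟨(g • y.1.1, c • dg (jj g y.1.1) y.1.2), smul_ne_zero hc0 hx⟩, ⟨hz, ?_⟩, ?_⟩
    · rw [mem_sphere_zero_iff_norm, norm_smul, hc, Complex.norm_real, norm_inv, norm_norm,
        inv_mul_cancel₀ hn]
    · exact (pj_eq_iff.2 ⟨g, hg, c, hc0, rfl, rfl⟩).symm
  rw [h2]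
  exact h1.image continuous_pj

instance : ConnectedSpace MX := by
  have h1 : IsConnected ({0}ᶜ : Set (Cn 3)) := by
    apply isConnected_compl_singleton_of_one_lt_rank
    have : Module.finrank ℝ (Cn 3) = 6 := by
      rw [Module.finrank_pi_fintype]
      simp
    rw [← Module.finrank_eq_rank, this]
    norm_num
  have h2 : IsConnected ((univ : Set ℍ) ×ˢ ({0}ᶜ : Set (Cn 3))) := isConnected_univ.prod h1
  have h3 : ConnectedSpace YY := by
    have h4 := isConnected_iff_connectedSpace.1 h2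
    let f : ((univ : Set ℍ) ×ˢ ({0}ᶜ : Set (Cn 3)) : Set (ℍ × Cn 3)) → YY := fun y => ⟨y.1, y.2.2⟩
    have hf : Continuous f := Continuous.subtype_mk continuous_subtype_val _
    exact Function.Surjective.connectedSpace (f := f)
      (fun y => ⟨⟨y.1, ⟨mem_univ _, y.2⟩⟩, rfl⟩) hf
  exact pj_surj.connectedSpace continuous_pj

end Pool.Agent.TH598.KG
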