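import Pool.Agent.TH598.KG.Quo

/-!
# The quotient of `ℍ × (ℂ³ ∖ 0)` by `Γ × ℂˣ`: charts
-/

set_option autoImplicit false

open scoped Manifold ContDiff Topology ComplexConjugate MatrixGroups UpperHalfPlane Matrix
open Set Filter

namespace Pool.Agent.TH598.KG

open Pool.Agent.W549.CY (Cn)
open Pool.Agent.W711.KC (jj nn CG jj_ne jj_mul nn_mul im_mob CG_far NN_pos)
open UpperHalfPlane (ofComplex)

theorem ins_self (i : Fin 3) (p : Cn 3) : ins i p i = 1 := by
  fin_cases i <;> rfl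

theorem ins_ne (i : Fin 3) (p : Cn 3) : ins i p ≠ 0 := by
  intro h
  have := congrFun h i
  rw [ins_self] at this
  exact one_ne_zero this

theorem hom_eq (g : SL(2, ℝ)) (i : Fin 3) (p : Cn 3) : hom g i p = dg (jj g (p 0)) (ins i p) := rfl

theorem isOpen_UU : IsOpen UU :=
  isOpen_lt continuous_const (Complex.continuous_im.comp (continuous_apply 0))

theorem continuousAt_ofComplex {z : ℂ} (hz : 0 < z.im) : ContinuousAt (ofComplex : ℂ → ℍ) z :=
  (UpperHalfPlane.contMDiffAt_ofComplex (n := 0) hz).continuousAt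

theorem ofC_im {z : ℂ} (hz : 0 < z.im) : ((ofComplex z : ℍ) : ℂ) = z := by
  rw [UpperHalfPlane.ofComplex_apply_of_im_pos hz]

theorem continuous_ins (i : Fin 3) : Continuous (ins i) := by
  refine continuous_pi fun j => ?_
  fin_cases i <;> fin_cases j <;> simp [ins] <;> fun_prop

/-- The point with affine coordinates `p` in the chart number `i`. -/
noncomputable def yI (i : Fin 3) (p : Cn 3) : YY := ⟨(ofComplex (p 0), ins i p), ins_ne i p⟩

/-- The map `qq`. -/
noncomputable def qM (i : Fin 3) (p : Cn 3) : MX := pj (yI i p)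

theorem continuousOn_yI (i : Fin 3) : ContinuousOn (yI i) UU := by
  intro p hp
  apply ContinuousAt.continuousWithinAt
  refine Topology.IsInducing.subtypeVal.continuousAt_iff.2 ?_
  refine ContinuousAt.prodMk ?_ (continuous_ins i).continuousAt
  exact ContinuousAt.comp (g := (ofComplex : ℂ → ℍ)) (f := fun p : Cn 3 => p 0)
    (continuousAt_ofComplex hp) (continuous_apply 0).continuousAt

theorem continuousOn_qM (i : Fin 3) : ContinuousOn (qM i) UU :=
  continuous_pj.comp_continuousOn (continuousOn_yI i)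

theorem ins_outc (j : Fin 3) {x : Cn 3} (hx : x j ≠ 0) (t : ℂ) :
    ins j ![t, outc j x 0, outc j x 1] = (x j)⁻¹ • x := by
  funext k
  fin_cases j <;> fin_cases k <;> simp [ins, outc] at hx ⊢ <;> field_simp

theorem outc_smul (j : Fin 3) (x : Cn 3) {c : ℂ} (hc : c ≠ 0) : outc j (c • x) = outc j x := by
  unfold outc
  simp only [Pi.smul_apply, smul_eq_mul]
  rw [mul_div_mul_left _ _ hc, mul_div_mul_left _ _ hc]

theorem outc_ins (j : Fin 3) (p : Cn 3) : outc j (ins j p) = ![p 1, p 2] := by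
  funext k
  fin_cases j <;> fin_cases k <;> simp [outc, ins]

theorem eta3 (p : Cn 3) : ![p 0, p 1, p 2] = p := by
  funext k
  fin_cases k <;> rfl

theorem qM_eq_iff {i j : Fin 3} {p p' : Cn 3} (hp : p ∈ UU) (hp' : p' ∈ UU) :
    qM i p = qM j p' ↔ ∃ g ∈ CG, hom g i p j ≠ 0 ∧ p' = FF g i j p := by
  unfold qM
  rw [pj_eq_iff]
  constructor
  · rintro ⟨g, hg, c, hc, h1, h2⟩
    change ofComplex (p' 0) = g • ofComplex (p 0) at h1
    change ins j p' = c • dg (jj g (ofComplex (p 0) : ℍ)) (ins i p) at h2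
    rw [ofC_im hp, ← hom_eq] at h2
    have h3 : p' 0 = nn g (p 0) / jj g (p 0) := by
      have := congrArg (fun z : ℍ => (z : ℂ)) h1
      rwa [coe_smul_H, ofC_im hp, ofC_im hp'] at this
    have h4 : hom g i p j ≠ 0 := by
      intro h0
      have := congrFun h2 j
      rw [ins_self, Pi.smul_apply, h0, smul_zero] at this
      exact one_ne_zero this
    refine ⟨g, hg, h4, ?_⟩
    have h5 : outc j (ins j p') = outc j (hom g i p) := by rw [h2, outc_smul j _ hc]
    rw [outc_ins] at h5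
    unfold FF
    rw [← h5, ← h3]
    exact (eta3 p').symm
  · rintro ⟨g, hg, h4, h5⟩
    refine ⟨g, hg, (hom g i p j)⁻¹, inv_ne_zero h4, ?_, ?_⟩
    · change ofComplex (p' 0) = g • ofComplex (p 0)
      apply UpperHalfPlane.ext
      rw [coe_smul_H, ofC_im hp, ofC_im hp', h5]
      rfl
    · change ins j p' = (hom g i p j)⁻¹ • dg (jj g (ofComplex (p 0) : ℍ)) (ins i p)
      rw [ofC_im hp, ← hom_eq, h5]
      unfold FF
      rw [ins_outc j h4]

theorem FF_one_self (i : Fin 3) (p : Cn 3) : FF 1 i i p = p := by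
  unfold FF
  have h1 : hom 1 i p = ins i p := by
    rw [hom_eq, jj_one', dg_one]
  rw [h1, outc_ins]
  have h2 : nn 1 (p 0) / jj 1 (p 0) = p 0 := by
    rw [jj_one']
    simp [nn]
  rw [h2]
  exact eta3 p

/-- The map from the part `x i ≠ 0` of `YY` to the affine coordinates. -/
noncomputable def aI (i : Fin 3) (y : YY) : Cn 3 := ![(y.1.1 : ℂ), outc i y.1.2 0, outc i y.1.2 1]

theorem aI_mem (i : Fin 3) (y : YY) : aI i y ∈ UU := y.1.1.im_pos

theorem pj_yI_aI (i : Fin 3) {y : YY} (hy : y.1.2 i ≠ 0) : qM i (aI i y) = pj y := by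
  unfold qM
  symm
  rw [pj_eq_iff]
  refine ⟨1, CG.one_mem, (y.1.2 i)⁻¹, inv_ne_zero hy, ?_, ?_⟩
  · rw [one_smul]
    apply UpperHalfPlane.ext
    exact ofC_im (aI_mem i y)
  · rw [jj_one', dg_one]
    exact ins_outc i hy _

theorem aI_yI (i : Fin 3) {p : Cn 3} (hp : p ∈ UU) : aI i (yI i p) = p := by
  unfold aI
  have h1 : outc i (yI i p).1.2 = ![p 1, p 2] := outc_ins i p
  rw [h1]
  have h2 : (((yI i p).1.1 : ℍ) : ℂ) = p 0 := ofC_im hp
  rw [h2]
  exact eta3 p

theorem continuousOn_aI (i : Fin 3) : ContinuousOn (aI i) {y : YY | y.1.2 i ≠ 0} := by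
  have c1 : Continuous fun y : YY => ((y.1.1 : ℍ) : ℂ) :=
    UpperHalfPlane.continuous_coe.comp (continuous_fst.comp continuous_subtype_val)
  have c2 : ∀ k, Continuous fun y : YY => y.1.2 k := fun k =>
    (continuous_apply k).comp (continuous_snd.comp continuous_subtype_val)
  refine continuousOn_pi.2 fun k => ?_
  fin_cases k
  · exact c1.continuousOn
  · exact (c2 _).continuousOn.div (c2 _).continuousOn fun y hy => hy
  · exact (c2 _).continuousOn.div (c2 _).continuousOn fun y hy => hy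

theorem isOpen_image_qM (i : Fin 3) {T : Set (Cn 3)} (hT : IsOpen T) (hTU : T ⊆ UU) :
    IsOpen (qM i '' T) := by
  have c2 : ∀ k, Continuous fun y : YY => y.1.2 k := fun k =>
    (continuous_apply k).comp (continuous_snd.comp continuous_subtype_val)
  have ho : IsOpen {y : YY | y.1.2 i ≠ 0} := isOpen_ne_fun (c2 i) continuous_const
  have h1 : IsOpen ({y : YY | y.1.2 i ≠ 0} ∩ aI i ⁻¹' T) :=
    (continuousOn_aI i).isOpen_inter_preimage ho hT
  have h2 : qM i '' T = pj '' ({y : YY | y.1.2 i ≠ 0} ∩ aI i ⁻¹' T) := by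
    ext q
    constructor
    · rintro ⟨p, hp, rfl⟩
      refine ⟨yI i p, ⟨?_, ?_⟩, rfl⟩
      · show ins i p i ≠ 0
        rw [ins_self]
        exact one_ne_zero
      · rw [mem_preimage, aI_yI i (hTU hp)]
        exact hp
    · rintro ⟨y, ⟨hy, hy'⟩, rfl⟩
      exact ⟨aI i y, hy', pj_yI_aI i hy⟩
  rw [h2]
  exact isOpenQuotientMap_pj.isOpenMap _ h1

/-- The target of a chart. -/
def TV (z : ℍ) : Set (Cn 3) := {p | p ∈ UU ∧ dist (ofComplex (p 0)) z < 1 / 2}

theorem isOpen_TV (z : ℍ) : IsOpen (TV z) := by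
  have h1 : ContinuousOn (fun p : Cn 3 => dist (ofComplex (p 0)) z) UU := by
    intro p hp
    apply ContinuousAt.continuousWithinAt
    have h2 : ContinuousAt (fun p : Cn 3 => (ofComplex (p 0) : ℍ)) p :=
      ContinuousAt.comp (g := (ofComplex : ℂ → ℍ)) (f := fun p : Cn 3 => p 0)
        (continuousAt_ofComplex hp) (continuous_apply 0).continuousAt
    exact Filter.Tendsto.dist h2 tendsto_const_nhds
  exact h1.isOpen_inter_preimage isOpen_UU isOpen_Iio

theorem injOn_qM (i : Fin 3) (z : ℍ) : InjOn (qM i) (TV z) := by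
  intro p hp p' hp' h
  obtain ⟨g, hg, h1, h2⟩ := (qM_eq_iff hp.1 hp'.1).1 h
  have h3 : ofComplex (p' 0) = g • ofComplex (p 0) := by
    apply UpperHalfPlane.ext
    rw [coe_smul_H, ofC_im hp.1, ofC_im hp'.1, h2]
    rfl
  have h4 : g = 1 := by
    refine CG_far.eq_of_dist_lt hg CG.one_mem (z := ofComplex (p 0)) ?_
    rw [one_smul, ← h3]
    have := dist_triangle_right (ofComplex (p' 0)) (ofComplex (p 0)) z
    linarith [hp.2, hp'.2]
  rw [h2, h4, FF_one_self]

/-- The inverse of a chart. -/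
noncomputable def chI (i : Fin 3) (z : ℍ) : OpenPartialHomeomorph (Cn 3) MX :=
  OpenPartialHomeomorph.ofContinuousOpenRestrict ((injOn_qM i z).toPartialEquiv (qM i) (TV z))
    ((continuousOn_qM i).mono fun _ hp => hp.1)
    (by
      intro S hS
      obtain ⟨O, hO, rfl⟩ := isOpen_induced_iff.1 hS
      have : (TV z).domRestrict (qM i) '' (Subtype.val ⁻¹' O) = qM i '' (TV z ∩ O) := by
        ext q
        constructor
        · rintro ⟨p, hp, rfl⟩
          exact ⟨p, ⟨p.2, hp⟩, rfl⟩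
        · rintro ⟨p, ⟨hp, hp'⟩, rfl⟩
          exact ⟨⟨p, hp⟩, hp', rfl⟩
      show IsOpen ((TV z).domRestrict (qM i) '' (Subtype.val ⁻¹' O))
      rw [this]
      exact isOpen_image_qM i ((isOpen_TV z).inter hO) fun _ hp => hp.1.1)
    (isOpen_TV z)

theorem chI_source (i : Fin 3) (z : ℍ) : (chI i z).source = TV z := rfl

theorem chI_apply (i : Fin 3) (z : ℍ) (p : Cn 3) : chI i z p = qM i p := rfl

theorem exists_qM (q : MX) : ∃ i : Fin 3, ∃ p ∈ UU, qM i p = q := by
  obtain ⟨y, rfl⟩ := pj_surj q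
  obtain ⟨i, hi⟩ := Function.ne_iff.1 y.2
  exact ⟨i, aI i y, aI_mem i y, pj_yI_aI i hi⟩

theorem mem_TV_self {p : Cn 3} (hp : p ∈ UU) : p ∈ TV (ofComplex (p 0)) :=
  ⟨hp, by rw [dist_self]; norm_num⟩

theorem exists_chI (q : MX) : ∃ iz : Fin 3 × ℍ, q ∈ (chI iz.1 iz.2).target := by
  obtain ⟨i, p, hp, rfl⟩ := exists_qM q
  exact ⟨(i, ofComplex (p 0)), (chI i _).map_source (mem_TV_self hp)⟩

noncomputable instance : ChartedSpace (Cn 3) MX where
  atlas := {e | ∃ i z, e = (chI i z).symm}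
  chartAt q := (chI (exists_chI q).choose.1 (exists_chI q).choose.2).symm
  mem_chart_source q := (exists_chI q).choose_spec
  chart_mem_atlas _ := ⟨_, _, rfl⟩

theorem mem_atlas_iff {e : OpenPartialHomeomorph MX (Cn 3)} :
    e ∈ atlas (Cn 3) MX ↔ ∃ i z, e = (chI i z).symm := Iff.rfl

/-- `MX` has the structure `IsQ`. -/
theorem isQ_MX : IsQ MX qM where
  atlas_spec := by
    rintro e ⟨i, z, rfl⟩
    exact ⟨i, fun p hp => hp.1, fun p _ => rfl⟩
  exists_chart := by
    intro i p hp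
    exact ⟨(chI i (ofComplex (p 0))).symm, ⟨_, _, rfl⟩, mem_TV_self hp, fun p hp => hp.1,
      fun p' _ => rfl⟩
  eq_iff := fun i j p hp p' hp' => qM_eq_iff hp hp'

theorem contDiffAt_FF {g : SL(2, ℝ)} {i j : Fin 3} {p : Cn 3} (hp : p ∈ UU)
    (h : hom g i p j ≠ 0) : ContDiffAt ℂ ω (FF g i j) p := by
  have c : ∀ k : Fin 3, ContDiffAt ℂ ω (fun q : Cn 3 => q k) p := fun k =>
    (contDiff_apply ℂ ℂ k).contDiffAt
  have cj : ContDiffAt ℂ ω (fun q : Cn 3 => jj g (q 0)) p := by
    unfold jj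
    exact (contDiffAt_const.mul (c 0)).add contDiffAt_const
  have cn : ContDiffAt ℂ ω (fun q : Cn 3 => nn g (q 0)) p := by
    unfold nn
    exact (contDiffAt_const.mul (c 0)).add contDiffAt_const
  have ci : ∀ k, ContDiffAt ℂ ω (fun q : Cn 3 => ins i q k) p := by
    intro k
    fin_cases i <;> fin_cases k <;> first | exact contDiffAt_const | exact c 1 | exact c 2
  have ch : ∀ k, ContDiffAt ℂ ω (fun q : Cn 3 => hom g i q k) p := by
    intro k
    fin_cases k
    · exact cj.mul (ci 0)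
    · exact ci 1
    · exact ci 2
  rw [contDiffAt_pi]
  intro k
  fin_cases k
  · exact cn.div cj (jj_ne g hp)
  · exact (ch _).div (ch j) h
  · exact (ch _).div (ch j) h

theorem FF_mem {g : SL(2, ℝ)} {i j : Fin 3} {p : Cn 3} (hp : p ∈ UU) : FF g i j p ∈ UU := by
  show 0 < (nn g (p 0) / jj g (p 0)).im
  rw [im_mob g hp]
  have : 0 < Complex.normSq (jj g (p 0)) := Complex.normSq_pos.2 (jj_ne g hp)
  exact div_pos hp this

instance : IsManifold 𝓘(ℂ, Cn 3) ω MX := by
  apply isManifold_of_contDiffOn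
  intro e e' he he' y hy
  simp only [modelWithCornersSelf_coe, modelWithCornersSelf_coe_symm, Function.comp_id,
    Function.id_comp, preimage_id, range_id, inter_univ] at hy ⊢
  obtain ⟨hy1, hy2⟩ : y ∈ e.target ∧ e.symm y ∈ e'.source := by
    simpa using hy
  obtain ⟨i, hi, hi'⟩ := isQ_MX.atlas_spec e he
  obtain ⟨j, hj, hj'⟩ := isQ_MX.atlas_spec e' he'
  have hyU := hi hy1
  have hy3 : e' (e.symm y) ∈ e'.target := e'.map_source hy2
  have h1 : qM i y = qM j (e' (e.symm y)) := by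
    rw [← hj' _ hy3, e'.left_inv hy2, hi' y hy1]
  obtain ⟨g, hg, h2, h3⟩ := (qM_eq_iff hyU (hj hy3)).1 h1
  have hF := contDiffAt_FF hyU h2
  apply ContDiffAt.contDiffWithinAt
  refine hF.congr_of_eventuallyEq ?_
  have c1 : ∀ᶠ x in 𝓝 y, FF g i j x ∈ e'.target := by
    apply hF.continuousAt.eventually_mem
    rw [← h3]
    exact e'.open_target.mem_nhds hy3
  have c2 : ∀ᶠ x in 𝓝 y, hom g i x j ≠ 0 := by
    have : ContinuousAt (fun x : Cn 3 => hom g i x j) y := by
      have hc : Continuous fun x : Cn 3 => hom g i x := by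
        refine continuous_dg.comp (Continuous.prodMk ?_ (continuous_ins i))
        fun_prop
      exact ((continuous_apply j).comp hc).continuousAt
    exact this.eventually_ne h2
  filter_upwards [c1, c2, e.open_target.mem_nhds hy1] with x hx1 hx2 hx3
  have hxU := hi hx3
  have h4 : qM i x = qM j (FF g i j x) := (qM_eq_iff hxU (FF_mem hxU)).2 ⟨g, hg, hx2, rfl⟩
  show e' (e.symm x) = FF g i j x
  rw [hi' x hx3, h4, ← hj' _ hx1, e'.right_inv hx1]

/-- The compact complex threefold `Γ \ (ℍ × ℙ²)`: quotient of `ℍ × (ℂ³ ∖ 0)` by `Γ × ℂˣ`. -/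
theorem exists_isQ : ∃ (X : Type) (_ : TopologicalSpace X) (_ : CompactSpace X) (_ : T2Space X)
    (_ : ConnectedSpace X) (_ : ChartedSpace (Cn 3) X) (_ : IsManifold 𝓘(ℂ, Cn 3) ω X)
    (qq : Fin 3 → Cn 3 → X), IsQ X qq ∧ ∀ i, ContinuousOn (qq i) UU :=
  ⟨MX, inferInstance, inferInstance, inferInstance, inferInstance, inferInstance, inferInstance, qM,
    isQ_MX, continuousOn_qM⟩

end Pool.Agent.TH598.KG
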